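import Pool.Graph.R_seed8.W889.FO.St0

set_option autoImplicit false

/-!
From functional languages to relational languages, for complete theories.
-/

namespace Pool.Agent.H2.TM

open FirstOrder FirstOrder.Language
open Pool.Agent.W889.FO
open Pool.Agent.W889.FO.St0 (RF LF W D gr fun_iff ax_theory iso_down iso_up countable_LF)

variable {L : FirstOrder.Language.{0, 0}}

/-- the graph structure -/
@[reducible] def Gr (M : L.Structure ℕ) : (LF L).Structure ℕ where
  funMap := fun {_} f => isEmptyElim f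
  RelMap := fun {n} Q => match n, Q with
    | _, @RF.rel _ n R => fun v => @Structure.RelMap L ℕ M n R v
    | _, @RF.fn _ n F => fun v =>
        @Structure.funMap L ℕ M n F (fun i => v i.castSucc) = v (Fin.last n)

theorem gr_Gr (M : L.Structure ℕ) {n : ℕ} (F : L.Functions n) (v : Fin n → ℕ) (b : ℕ) :
    gr (Gr M) F v b ↔ @Structure.funMap L ℕ M n F v = b := by
  show @Structure.funMap L ℕ M n F (fun i => Fin.snoc (α := fun _ => ℕ) v b i.castSucc) =
    Fin.snoc (α := fun _ => ℕ) v b (Fin.last n) ↔ _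
  simp only [Fin.snoc_castSucc, Fin.snoc_last]

theorem W_Gr (M : L.Structure ℕ) : W (Gr M) :=
  ⟨fun F v => ⟨_, (gr_Gr M F.2 v _).2 rfl⟩, fun F v b b' h1 h2 =>
    ((gr_Gr M F.2 v b).1 h1).symm.trans ((gr_Gr M F.2 v b').1 h2)⟩

theorem D_Gr (M : L.Structure ℕ) : D (Gr M) = M := by
  refine FirstOrder.Language.Structure.ext ?_ ?_
  · funext n F v
    rw [fun_iff (W_Gr M), gr_Gr]
  · funext n R v
    rfl

theorem Gr_D {S : (LF L).Structure ℕ} (h : W S) : SIso (Gr (D S)) S :=
  iso_up (W_Gr _) h (by rw [D_Gr]; exact SIso.refl _)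

theorem Gr_iso {M M' : L.Structure ℕ} (h : SIso M M') : SIso (Gr M) (Gr M') :=
  iso_up (W_Gr _) (W_Gr _) (by rw [D_Gr, D_Gr]; exact h)

theorem iso_Gr {M M' : L.Structure ℕ} (h : SIso (Gr M) (Gr M')) : SIso M M' := by
  have := iso_down (W_Gr M) (W_Gr M') h
  rw [D_Gr, D_Gr] at this
  exact this

/-- the interpretation of the graph structure -/
def IG (L : FirstOrder.Language.{0, 0}) : Itp (LF L) L where
  W := fun _ => True
  axW := Ax.of (FD.const True)
  dom := fun _ _ => True
  rel := fun {n} Q S v => @Structure.RelMap (LF L) ℕ (Gr S) n Q v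
  fdom := FD.const True
  frel := fun {n} Q => match n, Q with
    | _, @RF.rel _ n R => by
      have h := FD.rel (W := fun _ : L.Structure ℕ => True) R (fun i : Fin n => i)
      exact h
    | _, @RF.fn _ n F => by
      refine ⟨Term.equal (Term.func F fun i => Term.var i.castSucc) (Term.var (Fin.last n)),
        fun S _ v => ?_⟩
      exact Formula.realize_equal
  inf := fun _ _ N => ⟨N, le_rfl, trivial⟩

theorem IG_D (M : L.Structure ℕ) : SIso ((IG L).D M) (Gr M) :=
  (IG L).D_iso (S := M) trivial (Equiv.subtypeUnivEquiv (p := fun _ : ℕ => True)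
    fun _ => trivial).symm fun {_} _ _ => Iff.rfl

theorem ax_Gr (T0 : (LF L).Theory) : ∃ T1 : L.Theory, ∀ M : L.Structure ℕ,
    @Theory.Model L ℕ M T1 ↔ @Theory.Model (LF L) ℕ (Gr M) T0 := by
  obtain ⟨T1, hT1⟩ := (IG L).ax_theory T0
  refine ⟨T1, fun M => (hT1 M).trans ?_⟩
  exact ⟨fun h => (IG_D M).model h.2, fun h => ⟨trivial, (IG_D M).symm.model h⟩⟩

/-- the complete theory -/
abbrev Th (L : FirstOrder.Language.{0, 0}) (M : L.Structure ℕ) : L.Theory :=
  @FirstOrder.Language.completeTheory L ℕ M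

theorem model_Th (M : L.Structure ℕ) : @Theory.Model L ℕ M (Th L M) :=
  ax_iff.2 fun _ h => h

theorem Th_mono {M M' : L.Structure ℕ} {T : L.Theory} (h : @Theory.Model L ℕ M T)
    (h' : @Theory.Model L ℕ M' (Th L M)) : @Theory.Model L ℕ M' T :=
  ax_iff.2 fun φ hφ => ax_iff.1 h' φ (ax_iff.1 h φ hφ)

theorem Th_up {S0 : (LF L).Structure ℕ} (hW : W S0) {M : L.Structure ℕ}
    (hM : @Theory.Model L ℕ M (Th L (D S0))) : @Theory.Model (LF L) ℕ (Gr M) (Th (LF L) S0) := by
  obtain ⟨T1, hT1⟩ := ax_Gr (Th (LF L) S0)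
  refine (hT1 M).1 (Th_mono ((hT1 _).2 ?_) hM)
  exact (Gr_D hW).symm.model (model_Th S0)

theorem Th_down {S0 : (LF L).Structure ℕ} (hW : W S0) {S : (LF L).Structure ℕ}
    (hS : @Theory.Model (LF L) ℕ S (Th (LF L) S0)) :
    W S ∧ @Theory.Model L ℕ (D S) (Th L (D S0)) := by
  obtain ⟨T2, hT2⟩ := ax_theory (Th L (D S0))
  exact (hT2 S).1 (Th_mono ((hT2 S0).2 ⟨hW, model_Th _⟩) hS)

/-- The dichotomy for the complete theory of a structure gives the dichotomy for the complete
theory of its graph structure. -/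
theorem of_fun {S0 : (LF L).Structure ℕ} (hW : W S0) (hV : VaughtF L (Th L (D S0))) :
    Vaught (LF L) (Th (LF L) S0) := by
  rcases hV with ⟨g, hg⟩ | ⟨f, hf1, hf2, hf3, hf4⟩
  · left
    refine ⟨fun n => Gr (g n), fun S hS => ?_⟩
    obtain ⟨h1, h2⟩ := Th_down hW hS
    obtain ⟨n, hn⟩ := hg (D S) h2
    exact ⟨n, (Gr_D h1).symm.trans (Gr_iso hn)⟩
  · right
    refine ⟨fun x => Gr (f x), fun x => Th_up hW (hf1 x), fun x y hxy => hf2 x y (iso_Gr hxy),
      fun n Q a => ?_⟩
    cases Q with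
    | rel R => exact hf3 _ R a
    | @fn n F =>
      have h1 : ∀ b, IsOpen {x : ℕ → Bool |
          @Structure.funMap L ℕ (f x) n F (fun i => a i.castSucc) = b} :=
        fun b => hf4 n F _ b
      refine ⟨?_, h1 _⟩
      rw [← isOpen_compl_iff]
      have h2 : {x : ℕ → Bool | @Structure.RelMap (LF L) ℕ (Gr (f x)) _ (RF.fn F) a}ᶜ =
          ⋃ b : {b : ℕ // b ≠ a (Fin.last n)}, {x : ℕ → Bool |
            @Structure.funMap L ℕ (f x) n F (fun i => a i.castSucc) = b} := by
        ext x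
        rw [Set.mem_iUnion]
        constructor
        · intro h
          exact ⟨⟨_, h⟩, rfl⟩
        · rintro ⟨⟨b, hb⟩, h⟩ h'
          exact hb (Eq.trans (Eq.symm h) h')
      rw [h2]
      exact isOpen_iUnion fun b => h1 b

/-- The reduction to complete theories in the functional language. -/
theorem compF (hL : Countable L.Symbols) {P : L.Structure ℕ → Prop}
    (h : ∀ T : L.Theory, T.IsComplete → (∀ M : L.Structure ℕ, @Theory.Model L ℕ M T → P M) →
      VaughtF L T) (T' : (LF L).Theory)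
    (hT' : ∀ S : (LF L).Structure ℕ, @Theory.Model (LF L) ℕ S T' → W S ∧ P (D S)) :
    Vaught (LF L) T' := by
  haveI : Countable (Σ n, (LF L).Relations n) := countable_LF
  refine of_complete T' fun S hS => ?_
  have hW := (hT' S hS).1
  refine of_fun hW (h _ ?_ fun M hM => ?_)
  · exact @FirstOrder.Language.completeTheory.isComplete L ℕ (D S) _
  · have h1 := (hT' (Gr M) (Th_mono hS (Th_up hW hM))).2
    rw [D_Gr] at h1
    exact h1

end Pool.Agent.H2.TM
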