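import Mathlib.Data.Nat.Basic
import Mathlib.Tactic.Push
import Mathlib.Tactic.ByContra
import Mathlib.Tactic.Ring

set_option autoImplicit false

/-!
Naturally and totally ordered semigroups of bounded exponent.
-/

namespace Pool.Agent.H2.TM

variable {α : Type}

/-- naturally totally ordered semigroups, in the positive orientation -/
structure NO (le : α → α → Prop) (mul : α → α → α) : Prop where
  refl : ∀ x, le x x
  anti : ∀ x y, le x y → le y x → x = y
  trans : ∀ x y z, le x y → le y z → le x z
  total : ∀ x y, le x y ∨ le y x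
  assoc : ∀ x y z, mul (mul x y) z = mul x (mul y z)
  posl : ∀ x y, le x (mul x y)
  posr : ∀ x y, le y (mul x y)
  natl : ∀ x y, le x y → x ≠ y → ∃ z, mul x z = y
  natr : ∀ x y, le x y → x ≠ y → ∃ z, mul z x = y

/-- `pw a n` is the power with the exponent `n + 1` -/
def pw (mul : α → α → α) (a : α) : ℕ → α
  | 0 => a
  | n + 1 => mul (pw mul a n) a

variable {le : α → α → Prop} {mul : α → α → α}

theorem pw_add (ha : ∀ x y z, mul (mul x y) z = mul x (mul y z)) (a : α) (m : ℕ) :
    ∀ n, mul (pw mul a m) (pw mul a n) = pw mul a (m + n + 1)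
  | 0 => rfl
  | n + 1 => by
    show mul (pw mul a m) (mul (pw mul a n) a) = mul (pw mul a (m + n + 1)) a
    rw [← ha, pw_add ha a m n]

theorem pw_pw (ha : ∀ x y z, mul (mul x y) z = mul x (mul y z)) (a : α) (m : ℕ) :
    ∀ n, pw mul (pw mul a m) n = pw mul a ((m + 1) * (n + 1) - 1)
  | 0 => by simp [pw]
  | n + 1 => by
    show mul (pw mul (pw mul a m) n) (pw mul a m) = _
    rw [pw_pw ha a m n, pw_add ha]
    congr 1
    have h1 : (m + 1) * (n + 1 + 1) = (m + 1) * (n + 1) + (m + 1) := by ring
    have h2 : 0 < (m + 1) * (n + 1) := Nat.mul_pos (Nat.succ_pos _) (Nat.succ_pos _)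
    omega

section no

variable (h : NO le mul)

include h

theorem NO.left {a b c : α} (hbc : le b c) : le (mul a b) (mul a c) := by
  by_cases hne : b = c
  · rw [hne]
    exact h.refl _
  · obtain ⟨t, rfl⟩ := h.natl b c hbc hne
    rw [← h.assoc]
    exact h.posl _ _

theorem NO.right {a b c : α} (hbc : le b c) : le (mul b a) (mul c a) := by
  by_cases hne : b = c
  · rw [hne]
    exact h.refl _
  · obtain ⟨t, rfl⟩ := h.natr b c hbc hne
    rw [h.assoc]
    exact h.posr _ _

theorem NO.both {a b c d : α} (h1 : le a b) (h2 : le c d) : le (mul a c) (mul b d) :=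
  h.trans _ _ _ (h.right h1) (h.left h2)

theorem NO.pw_mono {a b : α} (hab : le a b) (n : ℕ) : le (pw mul a n) (pw mul b n) := by
  induction n with
  | zero => exact hab
  | succ n ih => exact h.both ih hab

theorem NO.pw_le {a : α} {m n : ℕ} (hmn : m ≤ n) : le (pw mul a m) (pw mul a n) := by
  induction n, hmn using Nat.le_induction with
  | base => exact h.refl _
  | succ n _ ih => exact h.trans _ _ _ ih (h.posl _ _)

theorem NO.absorb {f y z : α} (hf : mul f f = f) (h1 : le z f) (h2 : le f y) :
    mul z y = y ∧ mul y z = y := by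
  have h3 : mul f y = y := by
    by_cases hne : f = y
    · rw [← hne, hf]
    · obtain ⟨t, rfl⟩ := h.natl f y h2 hne
      rw [← h.assoc, hf]
  have h4 : mul y f = y := by
    by_cases hne : f = y
    · rw [← hne, hf]
    · obtain ⟨t, rfl⟩ := h.natr f y h2 hne
      rw [h.assoc, hf]
  constructor
  · refine h.anti _ _ ?_ (h.posr _ _)
    have h5 : le (mul z y) (mul f y) := h.right h1
    rw [h3] at h5
    exact h5
  · refine h.anti _ _ ?_ (h.posl _ _)
    have h5 : le (mul y z) (mul y f) := h.left h1
    rw [h4] at h5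
    exact h5

variable {N : ℕ} (hN : ∀ a, pw mul a N = pw mul a (N + 1))

include hN

theorem NO.pw_eq {a : α} {n : ℕ} (hn : N ≤ n) : pw mul a n = pw mul a N := by
  induction n, hn using Nat.le_induction with
  | base => rfl
  | succ n _ ih =>
    show mul (pw mul a n) a = _
    rw [ih]
    exact (hN a).symm

theorem NO.idem (a : α) : mul (pw mul a N) (pw mul a N) = pw mul a N := by
  rw [pw_add h.assoc]
  exact h.pw_eq hN (by omega)

omit h hN in
theorem NO.pw_idem {f : α} (hf : mul f f = f) (n : ℕ) : pw mul f n = f := by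
  induction n with
  | zero => rfl
  | succ n ih =>
    show mul (pw mul f n) f = f
    rw [ih, hf]

/-- products of elements of different classes -/
theorem NO.other {u v : α} (huv : le u v) (hE : pw mul u N ≠ pw mul v N) :
    mul u v = v ∧ mul v u = v := by
  rcases h.total (pw mul u N) v with h1 | h1
  · exact h.absorb (h.idem hN u) (h.pw_le (Nat.zero_le N)) h1
  · exfalso
    apply hE
    refine h.anti _ _ (h.pw_mono huv N) ?_
    have h2 := h.pw_mono h1 N
    rw [NO.pw_idem (h.idem hN u)] at h2
    exact h2

/-- quotients in a class -/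
theorem NO.quot {y y' : α} (hE : pw mul y' N = pw mul y N) (hne : y' ≠ y) {z : α}
    (hz : mul y' z = y) : pw mul z N = pw mul y N := by
  have h1 : le z y := by
    rw [← hz]
    exact h.posr _ _
  refine h.anti _ _ (h.pw_mono h1 N) ?_
  rcases h.total (pw mul z N) y' with h2 | h2
  · exfalso
    have h3 : mul y' z = y' := (h.absorb (h.idem hN z) (h.pw_le (Nat.zero_le N)) h2).2
    rw [hz] at h3
    exact hne h3.symm
  · have h3 := h.pw_mono h2 N
    rw [NO.pw_idem (h.idem hN z), hE] at h3
    exact h3

/-- every class has a least element -/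
theorem NO.least (u : α) : ∃ a, pw mul a N = pw mul u N ∧
    ∀ b, pw mul b N = pw mul u N → le a b := by
  by_contra hcon
  push Not at hcon
  have key : ∀ m, ∀ y, pw mul y N = pw mul u N → ∃ z, pw mul z N = pw mul u N ∧
      le (pw mul z m) y := by
    intro m
    induction m with
    | zero => exact fun y hy => ⟨y, hy, h.refl y⟩
    | succ m ih =>
      intro y hy
      obtain ⟨y', hy', hlt⟩ := hcon y hy
      have hle : le y' y := (h.total y' y).resolve_right hlt
      have hne : y' ≠ y := by
        rintro rfl
        exact hlt (h.refl _)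
      obtain ⟨z', hz'⟩ := h.natl y' y hle hne
      have hz1 : pw mul z' N = pw mul u N := (h.quot hN (hy'.trans hy.symm) hne hz').trans hy
      obtain ⟨z1, h1, h2⟩ := ih y' hy'
      rcases h.total z1 z' with h3 | h3
      · refine ⟨z1, h1, ?_⟩
        rw [← hz']
        exact h.both h2 h3
      · refine ⟨z', hz1, ?_⟩
        rw [← hz']
        exact h.both (h.trans _ _ _ (h.pw_mono h3 m) h2) (h.refl z')
  have h1 : ∀ y, pw mul y N = pw mul u N → pw mul u N = y := by
    intro y hy
    obtain ⟨z, hz1, hz2⟩ := key N y hy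
    rw [hz1] at hz2
    refine h.anti _ _ hz2 ?_
    rw [← hy]
    exact h.pw_le (Nat.zero_le N)
  obtain ⟨b, hb1, hb2⟩ := hcon u rfl
  apply hb2
  rw [← h1 u rfl, ← h1 b hb1]
  exact h.refl _

/-- the elements of a class are the powers of its least element -/
theorem NO.gen {a : α} (ha : ∀ b, pw mul b N = pw mul a N → le a b) {y : α}
    (hy : pw mul y N = pw mul a N) : ∃ j ≤ N, pw mul a j = y := by
  by_contra hcon
  push Not at hcon
  have hpow : ∀ j, pw mul a j ≠ y := by
    intro j hj
    rcases le_or_gt j N with h1 | h1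
    · exact hcon j h1 hj
    · exact hcon N le_rfl ((h.pw_eq hN (Nat.le_of_lt h1)).symm.trans hj)
  have key : ∀ m, ∀ y, pw mul y N = pw mul a N → (∀ j, pw mul a j ≠ y) → le (pw mul a m) y := by
    intro m
    induction m with
    | zero => exact fun y hy _ => ha y hy
    | succ m ih =>
      intro y hy hn
      have hle : le a y := ha y hy
      obtain ⟨z, hz⟩ := h.natl a y hle (hn 0)
      have hz1 : pw mul z N = pw mul a N := (h.quot hN hy.symm (hn 0) hz).trans hy
      have hz2 : ∀ j, pw mul a j ≠ z := by
        intro j hj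
        apply hn (j + 1)
        have h1 := pw_add (mul := mul) h.assoc a 0 j
        rw [← hz, ← hj]
        rw [Nat.zero_add] at h1
        exact h1.symm
      have h2 := ih z hz1 hz2
      rw [← hz]
      have h3 := pw_add (mul := mul) h.assoc a 0 m
      rw [Nat.zero_add] at h3
      rw [← h3]
      exact h.left h2
  apply hpow N
  refine h.anti _ _ (key N y hy hpow) ?_
  rw [← hy]
  exact h.pw_le (Nat.zero_le N)

end no

end Pool.Agent.H2.TM
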