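import Pool.Agent.H2.TM.Alg
import Pool.Agent.H2.VC.Tr

set_option autoImplicit false

/-!
The dichotomy for naturally totally ordered semigroups of bounded exponent, with unary predicates
and constants.
-/

namespace Pool.Agent.H2.TM

open Pool.Agent.H533R2.VO (RS)
open Pool.Agent.H533R2.VS
open Pool.Agent.H533R2
open Pool.Agent.Y560.TH (m_dec)
open Pool.Agent.W889.VC (BP)

/-- the triple -/
def tr {n : ℕ} (u v w : ℕ) : Fin n → ℕ :=
  fun j => if j.val = 0 then u else if j.val = 1 then v else w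

/-- the third entry -/
def th {n : ℕ} (v : Fin n → ℕ) : ℕ := if h : 2 < n then v ⟨2, h⟩ else 0

open Pool.Agent.H2.VC (pr fs sn pr_fs_sn comp_pr)

theorem tr_fst {n : ℕ} (hn : n = 3) (v : Fin n → ℕ) : tr (fs v) (sn v) (th v) = v := by
  subst hn
  funext j
  fin_cases j <;> rfl

theorem comp_tr {n : ℕ} (σ : ℕ → ℕ) (u v w : ℕ) :
    σ ∘ (tr u v w : Fin n → ℕ) = tr (σ u) (σ v) (σ w) := by
  funext j
  show σ (if j.val = 0 then u else if j.val = 1 then v else w) = if j.val = 0 then σ u else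
    if j.val = 1 then σ v else σ w
  split_ifs <;> rfl

theorem fs_comp {n : ℕ} (hn : 0 < n) (σ : ℕ → ℕ) (v : Fin n → ℕ) : fs (σ ∘ v) = σ (fs v) := by
  unfold fs
  rw [dif_pos hn, dif_pos hn]
  rfl

theorem sn_comp {n : ℕ} (hn : 1 < n) (σ : ℕ → ℕ) (v : Fin n → ℕ) : sn (σ ∘ v) = σ (sn v) := by
  unfold sn
  rw [dif_pos hn, dif_pos hn]
  rfl

theorem th_comp {n : ℕ} (hn : 2 < n) (σ : ℕ → ℕ) (v : Fin n → ℕ) : th (σ ∘ v) = σ (th v) := by
  unfold th
  rw [dif_pos hn, dif_pos hn]
  rfl

variable {a : ℕ → ℕ}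

/-- the reversed order of a code -/
def Lx (x : RS a) (l u v : ℕ) : Prop := x l (pr v u) = true

/-- the graph of the multiplication of a code -/
def Gx (x : RS a) (m u v w : ℕ) : Prop := x m (tr u v w) = true

/-- powers -/
def Px (x : RS a) (m : ℕ) : ℕ → ℕ → ℕ → Prop
  | 0, u, w => w = u
  | n + 1, u, w => ∃ v, Px x m n u v ∧ Gx x m v u w

/-- the classes -/
def Ex (x : RS a) (m N u v : ℕ) : Prop := ∃ e, Px x m N u e ∧ Px x m N v e

/-- the powers of the least elements of the classes -/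
def Kx (x : RS a) (l m N j u : ℕ) : Prop :=
  ∃ b, (∀ c, Ex x m N b c → Lx x l b c) ∧ Ex x m N b u ∧ Px x m j b u

/-- the arities of the coding structure -/
abbrev b2 : ℕ → ℕ := fun _ => 2

open Classical in
/-- the coding structure -/
noncomputable def cc (l m N : ℕ) (x : RS a) : RS b2 := fun i v =>
  match i with
  | 0 => x l (pr (fs v) (sn v))
  | 1 => decide (Ex x m N (fs v) (sn v))
  | i + 2 => if i % 2 = 0 then decide (fs v = sn v ∧ Kx x l m N (i / 2) (fs v))
      else decide (fs v = sn v ∧ x (i / 2) (fun _ => fs v) = true)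

/-- the decoded multiplication -/
def gd (N : ℕ) (z : RS b2) (u v w : ℕ) : Bool :=
  (!z 1 (pr u v) && ((z 0 (pr v u) && decide (w = v)) || (!z 0 (pr v u) && decide (w = u)))) ||
  (z 1 (pr u v) && (z 1 (pr u w) && (List.range (N + 1)).any fun i =>
    (List.range (N + 1)).any fun j => z (2 * i + 2) (pr u u) && (z (2 * j + 2) (pr v v) &&
      z (2 * (min (i + j + 1) N) + 2) (pr w w))))

/-- the decoded structure -/
def dd (l m N : ℕ) (z : RS b2) : RS a := fun i v =>
  if i = l then z 0 (pr (fs v) (sn v))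
  else if i = m then gd N z (fs v) (sn v) (th v)
  else if a i = 1 then z (2 * i + 3) (pr (fs v) (fs v)) else false

section cont

variable {X : Type} [TopologicalSpace X]

theorem c_and {f g : X → Bool} (hf : Continuous f) (hg : Continuous g) :
    Continuous fun x => f x && g x :=
  (continuous_of_discreteTopology (f := fun p : Bool × Bool => p.1 && p.2)).comp (hf.prodMk hg)

theorem c_or {f g : X → Bool} (hf : Continuous f) (hg : Continuous g) :
    Continuous fun x => f x || g x :=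
  (continuous_of_discreteTopology (f := fun p : Bool × Bool => p.1 || p.2)).comp (hf.prodMk hg)

theorem c_not {f : X → Bool} (hf : Continuous f) : Continuous fun x => !f x :=
  (continuous_of_discreteTopology (f := fun p : Bool => !p)).comp hf

theorem c_any {f : X → ℕ → Bool} (ls : List ℕ) (hf : ∀ i, Continuous fun x => f x i) :
    Continuous fun x => ls.any (f x) := by
  induction ls with
  | nil => exact continuous_const
  | cons i ls ih =>
    have e : (fun x => (i :: ls).any (f x)) = fun x => f x i || ls.any (f x) := by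
      funext x
      rw [List.any_cons]
    rw [e]
    exact c_or (hf i) ih

end cont

theorem c_ev (i u v : ℕ) : Continuous fun z : RS b2 => z i (pr u v) :=
  (continuous_apply (pr u v : Fin (b2 i) → ℕ)).comp (continuous_apply i)

theorem dd_cont (l m N : ℕ) : Continuous (dd l m N : RS b2 → RS a) := by
  refine continuous_pi fun i => continuous_pi fun v => ?_
  show Continuous fun z : RS b2 => if i = l then z 0 (pr (fs v) (sn v))
    else if i = m then gd N z (fs v) (sn v) (th v)
    else if a i = 1 then z (2 * i + 3) (pr (fs v) (fs v)) else false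
  split_ifs
  · exact c_ev _ _ _
  · unfold gd
    refine c_or (c_and (c_not (c_ev _ _ _)) (c_or (c_and (c_ev _ _ _) continuous_const)
      (c_and (c_not (c_ev _ _ _)) continuous_const)))
      (c_and (c_ev _ _ _) (c_and (c_ev _ _ _) (c_any _ fun i => c_any _ fun j => ?_)))
    exact c_and (c_ev _ _ _) (c_and (c_ev _ _ _) (c_ev _ _ _))
  · exact c_ev _ _ _
  · exact continuous_const

theorem bp_at (i : ℕ) (v : Fin (a i) → ℕ) : BP (fun x : RS a => x i v = true) := by
  have h1 : Measurable fun x : RS a => x i v :=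
    (measurable_pi_apply v).comp (measurable_pi_apply i)
  exact h1 (measurableSet_singleton true)

theorem bp_px (m : ℕ) : ∀ n u w, BP (fun x : RS a => Px x m n u w)
  | 0, _, _ => BP.const _
  | n + 1, u, _ => BP.ex fun v => (bp_px m n u v).and (bp_at _ _)

theorem bp_ex (m N u v : ℕ) : BP (fun x : RS a => Ex x m N u v) :=
  BP.ex fun _ => (bp_px _ _ _ _).and (bp_px _ _ _ _)

theorem bp_kx (l m N j u : ℕ) : BP (fun x : RS a => Kx x l m N j u) :=
  BP.ex fun _ => (BP.all fun _ => (bp_ex _ _ _ _).imp (bp_at _ _)).and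
    ((bp_ex _ _ _ _).and (bp_px _ _ _ _))

theorem me_dec {X : Type} [MeasurableSpace X] {p : X → Prop} [∀ x, Decidable (p x)] (h : BP p) :
    Measurable fun x => decide (p x) := by
  refine measurable_to_bool ?_
  have : (fun x => decide (p x)) ⁻¹' {true} = {x | p x} := by
    ext x
    simp
  rw [this]
  exact h

theorem cc_meas (l m N : ℕ) : Measurable (cc l m N : RS a → RS b2) := by
  classical
  refine measurable_pi_lambda _ fun i => measurable_pi_lambda _ fun v => ?_
  match i with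
  | 0 => exact (measurable_pi_apply _).comp (measurable_pi_apply l)
  | 1 => exact me_dec (bp_ex m N (fs v) (sn v))
  | i + 2 =>
    show Measurable fun x : RS a => if i % 2 = 0 then
      decide (fs v = sn v ∧ Kx x l m N (i / 2) (fs v))
      else decide (fs v = sn v ∧ x (i / 2) (fun _ => fs v) = true)
    split_ifs
    · exact me_dec ((BP.const _).and (bp_kx _ _ _ _ _))
    · exact me_dec ((BP.const _).and (bp_at _ _))

section act

variable (σ : Equiv.Perm ℕ) (x : RS a)

theorem gx_act (m u v w : ℕ) :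
    Gx (act σ x) m u v w ↔ Gx x m (σ.symm u) (σ.symm v) (σ.symm w) := by
  unfold Gx act
  rw [comp_tr]

theorem lx_act (m u v : ℕ) : Lx (act σ x) m u v ↔ Lx x m (σ.symm u) (σ.symm v) := by
  unfold Lx act
  rw [comp_pr]

theorem ex_perm {P : ℕ → Prop} : (∃ v, P v) ↔ ∃ v, P (σ.symm v) := by
  constructor
  · rintro ⟨v, hv⟩
    exact ⟨σ v, by rwa [σ.symm_apply_apply]⟩
  · rintro ⟨v, hv⟩
    exact ⟨_, hv⟩

theorem all_perm {P : ℕ → Prop} : (∀ v, P v) ↔ ∀ v, P (σ.symm v) := by
  constructor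
  · exact fun h v => h _
  · intro h v
    have := h (σ v)
    rwa [σ.symm_apply_apply] at this

theorem px_act (m : ℕ) : ∀ n u w, Px (act σ x) m n u w ↔ Px x m n (σ.symm u) (σ.symm w)
  | 0, u, w => by
    show w = u ↔ σ.symm w = σ.symm u
    rw [σ.symm.apply_eq_iff_eq]
  | n + 1, u, w => by
    show (∃ v, Px (act σ x) m n u v ∧ Gx (act σ x) m v u w) ↔
      ∃ v, Px x m n (σ.symm u) v ∧ Gx x m v (σ.symm u) (σ.symm w)
    rw [ex_perm σ (P := fun v => Px x m n (σ.symm u) v ∧ Gx x m v (σ.symm u) (σ.symm w))]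
    refine exists_congr fun v => ?_
    rw [px_act m n, gx_act]

theorem ex_act (m N u v : ℕ) : Ex (act σ x) m N u v ↔ Ex x m N (σ.symm u) (σ.symm v) := by
  unfold Ex
  rw [ex_perm σ (P := fun e => Px x m N (σ.symm u) e ∧ Px x m N (σ.symm v) e)]
  refine exists_congr fun v => ?_
  rw [px_act, px_act]

theorem kx_act (l m N j u : ℕ) : Kx (act σ x) l m N j u ↔ Kx x l m N j (σ.symm u) := by
  unfold Kx
  rw [ex_perm σ (P := fun b => (∀ c, Ex x m N b c → Lx x l b c) ∧ Ex x m N b (σ.symm u) ∧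
    Px x m j b (σ.symm u))]
  refine exists_congr fun b => ?_
  rw [ex_act, px_act, all_perm σ (P := fun c => Ex x m N (σ.symm b) c → Lx x l (σ.symm b) c)]
  simp only [ex_act, lx_act]

theorem fs2 (v : Fin 2 → ℕ) : fs (⇑σ.symm ∘ v) = σ.symm (fs v) := fs_comp (by omega) _ _

theorem sn2 (v : Fin 2 → ℕ) : sn (⇑σ.symm ∘ v) = σ.symm (sn v) := sn_comp (by omega) _ _

theorem cc_act (l m N : ℕ) : cc l m N (act σ x) = act σ (cc l m N x) := by
  classical
  funext i v
  match i with
  | 0 =>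
    show x l (⇑σ.symm ∘ pr (fs v) (sn v)) = x l (pr (fs (⇑σ.symm ∘ v)) (sn (⇑σ.symm ∘ v)))
    rw [comp_pr, fs2, sn2]
  | 1 =>
    show decide (Ex (act σ x) m N (fs v) (sn v)) =
      decide (Ex x m N (fs (⇑σ.symm ∘ v)) (sn (⇑σ.symm ∘ v)))
    rw [fs2, sn2]
    exact decide_eq_decide.2 (ex_act _ _ _ _ _ _)
  | i + 2 =>
    show (if i % 2 = 0 then decide (fs v = sn v ∧ Kx (act σ x) l m N (i / 2) (fs v))
      else decide (fs v = sn v ∧ x (i / 2) (⇑σ.symm ∘ fun _ => fs v) = true)) =
      if i % 2 = 0 then decide (fs (⇑σ.symm ∘ v) = sn (⇑σ.symm ∘ v) ∧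
        Kx x l m N (i / 2) (fs (⇑σ.symm ∘ v)))
      else decide (fs (⇑σ.symm ∘ v) = sn (⇑σ.symm ∘ v) ∧
        x (i / 2) (fun _ => fs (⇑σ.symm ∘ v)) = true)
    rw [fs2, sn2]
    split_ifs
    · refine decide_eq_decide.2 (and_congr ?_ (kx_act _ _ _ _ _ _ _))
      rw [σ.symm.apply_eq_iff_eq]
    · refine decide_eq_decide.2 (and_congr ?_ Iff.rfl)
      rw [σ.symm.apply_eq_iff_eq]

theorem gd_act (N : ℕ) (z : RS b2) (u v w : ℕ) :
    gd N (act σ z) u v w = gd N z (σ.symm u) (σ.symm v) (σ.symm w) := by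
  have h1 : ∀ i u v, act σ z i (pr u v) = z i (pr (σ.symm u) (σ.symm v)) := by
    intro i u v
    show z i (⇑σ.symm ∘ pr u v) = _
    rw [comp_pr]
  have h2 : ∀ u v, decide (u = v) = decide (σ.symm u = σ.symm v) := fun u v =>
    decide_eq_decide.2 σ.symm.apply_eq_iff_eq.symm
  unfold gd
  simp only [h1]
  rw [h2 w v, h2 w u]

theorem dd_act {l m : ℕ} (hl : a l = 2) (hm : a m = 3) (N : ℕ) (z : RS b2) :
    (dd l m N (act σ z) : RS a) = act σ (dd l m N z) := by
  funext i v
  show (if i = l then z 0 (⇑σ.symm ∘ pr (fs v) (sn v))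
    else if i = m then gd N (act σ z) (fs v) (sn v) (th v)
    else if a i = 1 then z (2 * i + 3) (⇑σ.symm ∘ pr (fs v) (fs v)) else false) =
    if i = l then z 0 (pr (fs (⇑σ.symm ∘ v)) (sn (⇑σ.symm ∘ v)))
    else if i = m then gd N z (fs (⇑σ.symm ∘ v)) (sn (⇑σ.symm ∘ v)) (th (⇑σ.symm ∘ v))
    else if a i = 1 then z (2 * i + 3) (pr (fs (⇑σ.symm ∘ v)) (fs (⇑σ.symm ∘ v))) else false
  by_cases h1 : i = l
  · subst h1
    rw [if_pos rfl, if_pos rfl, comp_pr, fs_comp (by omega), sn_comp (by omega)]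
  · rw [if_neg h1, if_neg h1]
    by_cases h2 : i = m
    · subst h2
      rw [if_pos rfl, if_pos rfl, gd_act, fs_comp (by omega), sn_comp (by omega),
        th_comp (by omega)]
    · rw [if_neg h2, if_neg h2]
      by_cases h3 : a i = 1
      · rw [if_pos h3, if_pos h3, comp_pr, fs_comp (by omega)]
      · rw [if_neg h3, if_neg h3]

end act

theorem canon {l m : ℕ} (hl : a l = 2) (hm : a m = 3) (N : ℕ) :
    Canon (cc l m N : RS a → RS b2) (dd l m N) :=
  ⟨cc_meas l m N, dd_cont l m N, fun σ x => cc_act σ x l m N, fun σ z => dd_act σ hl hm N z⟩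

/-- the codes of the structures of the class -/
structure Bd (l m N : ℕ) (x : RS a) : Prop where
  ex : ∃ mul : ℕ → ℕ → ℕ, NO (Lx x l) mul ∧ (∀ u v w, Gx x m u v w ↔ mul u v = w) ∧
    ∀ u, pw mul u N = pw mul u (N + 1)
  nul : ∀ i, a i = 0 → ∀ v, x i v = false

section bd

variable {x : RS a} {l m N : ℕ} {mul : ℕ → ℕ → ℕ} (h : NO (Lx x l) mul)
  (hG : ∀ u v w, Gx x m u v w ↔ mul u v = w) (hN : ∀ u, pw mul u N = pw mul u (N + 1))

include hG in
theorem px_iff : ∀ n u w, Px x m n u w ↔ pw mul u n = w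
  | 0, u, w => eq_comm
  | n + 1, u, w => by
    show (∃ v, Px x m n u v ∧ Gx x m v u w) ↔ mul (pw mul u n) u = w
    constructor
    · rintro ⟨v, h1, h2⟩
      rw [px_iff n] at h1
      rw [h1]
      exact (hG _ _ _).1 h2
    · exact fun h1 => ⟨_, (px_iff n _ _).2 rfl, (hG _ _ _).2 h1⟩

include hG in
theorem ex_iff (u v : ℕ) : Ex x m N u v ↔ pw mul u N = pw mul v N := by
  unfold Ex
  simp only [px_iff hG]
  exact ⟨fun ⟨e, h1, h2⟩ => h1.trans h2.symm, fun h1 => ⟨_, h1, rfl⟩⟩

include h hG hN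

theorem pw_class (b j : ℕ) : pw mul (pw mul b j) N = pw mul b N := by
  rw [pw_pw h.assoc]
  refine h.pw_eq hN ?_
  have h1 : 1 * (N + 1) ≤ (j + 1) * (N + 1) := Nat.mul_le_mul_right _ (by omega)
  omega

theorem kx_iff (j u : ℕ) : Kx x l m N j u ↔ ∃ b, (∀ c, pw mul c N = pw mul b N → Lx x l b c) ∧
    pw mul b j = u := by
  unfold Kx
  simp only [ex_iff hG, px_iff hG]
  constructor
  · rintro ⟨b, h1, -, h3⟩
    exact ⟨b, fun c hc => h1 c hc.symm, h3⟩
  · rintro ⟨b, h1, h3⟩
    refine ⟨b, fun c hc => h1 c hc.symm, ?_, h3⟩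
    rw [← h3]
    exact (pw_class h hG hN b j).symm

theorem any_iff (P : ℕ → Bool) : (List.range (N + 1)).any P = true ↔ ∃ i ≤ N, P i = true := by
  rw [List.any_eq_true]
  constructor
  · rintro ⟨i, h1, h2⟩
    exact ⟨i, by have := List.mem_range.1 h1; omega, h2⟩
  · rintro ⟨i, h1, h2⟩
    exact ⟨i, List.mem_range.2 (by omega), h2⟩

theorem cc_0 (u v : ℕ) : cc l m N x 0 (pr u v) = true ↔ Lx x l v u := Iff.rfl

theorem cc_1 (u v : ℕ) : cc l m N x 1 (pr u v) = true ↔ pw mul u N = pw mul v N := by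
  classical
  rw [← ex_iff hG]
  exact decide_eq_true_iff

theorem cc_k (j u v : ℕ) : cc l m N x (2 * j + 2) (pr u v) = true ↔ u = v ∧ Kx x l m N j u := by
  classical
  show (if (2 * j) % 2 = 0 then decide (u = v ∧ Kx x l m N ((2 * j) / 2) u)
    else decide (u = v ∧ x ((2 * j) / 2) (fun _ => u) = true)) = true ↔ _
  rw [if_pos (by omega), decide_eq_true_iff]
  have e : 2 * j / 2 = j := by omega
  rw [e]

theorem cc_u (j u v : ℕ) :
    cc l m N x (2 * j + 3) (pr u v) = true ↔ u = v ∧ x j (fun _ => u) = true := by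
  classical
  show (if (2 * j + 1) % 2 = 0 then decide (u = v ∧ Kx x l m N ((2 * j + 1) / 2) u)
    else decide (u = v ∧ x ((2 * j + 1) / 2) (fun _ => u) = true)) = true ↔ _
  rw [if_neg (by omega), decide_eq_true_iff]
  have e : (2 * j + 1) / 2 = j := by omega
  rw [e]

theorem gd_iff (u v w : ℕ) : gd N (cc l m N x) u v w = true ↔ mul u v = w := by
  have h1 : gd N (cc l m N x) u v w = true ↔
      (pw mul u N ≠ pw mul v N ∧ ((Lx x l u v ∧ w = v) ∨ (¬ Lx x l u v ∧ w = u))) ∨
      (pw mul u N = pw mul v N ∧ pw mul u N = pw mul w N ∧ ∃ i ≤ N, ∃ j ≤ N,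
        Kx x l m N i u ∧ Kx x l m N j v ∧ Kx x l m N (min (i + j + 1) N) w) := by
    unfold gd
    simp only [Bool.or_eq_true, Bool.and_eq_true, Bool.not_eq_true', decide_eq_true_iff,
      any_iff h hG hN, ← Bool.not_eq_true, cc_0 h hG hN, cc_1 h hG hN, cc_k h hG hN, true_and,
      ne_eq]
  rw [h1]
  constructor
  · rintro (⟨h2, ⟨h3, rfl⟩ | ⟨h3, rfl⟩⟩ | ⟨h2, h3, i, -, j, -, h4, h5, h6⟩)
    · exact (h.other hN h3 h2).1
    · exact (h.other hN ((h.total _ _).resolve_left h3) (Ne.symm h2)).2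
    · obtain ⟨b, b1, rfl⟩ := (kx_iff h hG hN _ _).1 h4
      obtain ⟨c, c1, rfl⟩ := (kx_iff h hG hN _ _).1 h5
      obtain ⟨d, d1, rfl⟩ := (kx_iff h hG hN _ _).1 h6
      rw [pw_class h hG hN, pw_class h hG hN] at h2
      rw [pw_class h hG hN, pw_class h hG hN] at h3
      obtain rfl : b = c := h.anti _ _ (b1 c h2.symm) (c1 b h2)
      obtain rfl : b = d := h.anti _ _ (b1 d h3.symm) (d1 b h3)
      rw [pw_add h.assoc]
      rcases le_total (i + j + 1) N with h7 | h7
      · rw [min_eq_left h7]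
      · rw [min_eq_right h7]
        exact h.pw_eq hN h7
  · rintro rfl
    by_cases h2 : pw mul u N = pw mul v N
    · right
      obtain ⟨b, b1, b2⟩ := h.least hN u
      have b2' : ∀ c, pw mul c N = pw mul b N → Lx x l b c := fun c hc => b2 c (hc.trans b1)
      obtain ⟨i, hi, rfl⟩ := h.gen hN b2' b1.symm
      obtain ⟨j, hj, rfl⟩ := h.gen hN b2' (h2.symm.trans b1.symm)
      refine ⟨h2, ?_, i, hi, j, hj, (kx_iff h hG hN _ _).2 ⟨b, b2', rfl⟩,
        (kx_iff h hG hN _ _).2 ⟨b, b2', rfl⟩, (kx_iff h hG hN _ _).2 ⟨b, b2', ?_⟩⟩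
      · rw [pw_add h.assoc, pw_class h hG hN, pw_class h hG hN]
      · rw [pw_add h.assoc]
        rcases le_total (i + j + 1) N with h7 | h7
        · rw [min_eq_left h7]
        · rw [min_eq_right h7]
          exact (h.pw_eq hN h7).symm
    · left
      refine ⟨h2, ?_⟩
      by_cases h3 : Lx x l u v
      · exact Or.inl ⟨h3, (h.other hN h3 h2).1⟩
      · exact Or.inr ⟨h3, (h.other hN ((h.total u v).resolve_left h3) (Ne.symm h2)).2⟩

end bd

theorem dd_cc {x : RS a} {l m N : ℕ} (hl : a l = 2) (hm : a m = 3)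
    (har : ∀ i, i ≠ l → i ≠ m → a i ≤ 1) (hx : Bd l m N x) :
    (dd l m N (cc l m N x) : RS a) = x := by
  obtain ⟨mul, h, hG, hN⟩ := hx.ex
  funext i v
  show (if i = l then cc l m N x 0 (pr (fs v) (sn v))
    else if i = m then gd N (cc l m N x) (fs v) (sn v) (th v)
    else if a i = 1 then cc l m N x (2 * i + 3) (pr (fs v) (fs v)) else false) = x i v
  by_cases h1 : i = l
  · subst h1
    rw [if_pos rfl]
    show x i (pr (fs v) (sn v)) = x i v
    rw [pr_fs_sn (by omega)]
  · rw [if_neg h1]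
    by_cases h2 : i = m
    · subst h2
      rw [if_pos rfl, Bool.eq_iff_iff, gd_iff h hG hN, ← hG]
      unfold Gx
      rw [tr_fst hm]
    · rw [if_neg h2]
      by_cases h3 : a i = 1
      · rw [if_pos h3, Bool.eq_iff_iff, cc_u h hG hN]
        have e : (fun _ => fs v) = v := by
          funext j
          have hj := j.isLt
          unfold fs
          rw [dif_pos (by omega)]
          congr 1
          exact Fin.ext (by show 0 = j.val; omega)
        rw [e]
        exact ⟨fun h4 => h4.2, fun h4 => ⟨rfl, h4⟩⟩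
      · rw [if_neg h3]
        have h4 := har i h1 h2
        exact (hx.nul i (by omega) v).symm

/-- a least element of a finite set -/
theorem ex_min {le : ℕ → ℕ → Prop} (hr : ∀ x, le x x) (ht : ∀ x y z, le x y → le y z → le x z)
    (hto : ∀ x y, le x y ∨ le y x) (F : Finset ℕ) (hF : F.Nonempty) :
    ∃ b ∈ F, ∀ c ∈ F, le b c := by
  induction hF using Finset.Nonempty.cons_induction with
  | singleton u => exact ⟨u, by simp, fun c hc => by
      rw [Finset.mem_singleton] at hc
      rw [hc]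
      exact hr _⟩
  | cons u s hu hs ih =>
    obtain ⟨b, hb, hb'⟩ := ih
    rcases hto u b with h1 | h1
    · refine ⟨u, by simp, fun c hc => ?_⟩
      rw [Finset.mem_cons] at hc
      rcases hc with rfl | hc
      · exact hr _
      · exact ht _ _ _ h1 (hb' c hc)
    · refine ⟨b, by simp [hb], fun c hc => ?_⟩
      rw [Finset.mem_cons] at hc
      rcases hc with rfl | hc
      · exact h1
      · exact hb' c hc

theorem dec_cc {x : RS a} {l m N : ℕ} (hx : Bd l m N x) : DecG (cc l m N x) := by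
  classical
  obtain ⟨mul, h, hG, hN⟩ := hx.ex
  refine ⟨fun i hi => absurd rfl hi, ?_⟩
  intro F hF
  have hF2 : 3 ≤ F.card := by omega
  have hconv : ∀ u v w, Lx x l u v → Lx x l v w → pw mul u N = pw mul w N →
      pw mul u N = pw mul v N := fun u v w h1 h2 h3 =>
    h.anti _ _ (h.pw_mono h1 N) (by rw [h3]; exact h.pw_mono h2 N)
  obtain ⟨b, hb, hb'⟩ := ex_min h.refl h.trans h.total F (Finset.card_pos.1 (by omega))
  have hne : (F.erase b).Nonempty := Finset.card_pos.1 (by rw [Finset.card_erase_of_mem hb]; omega)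
  obtain ⟨c, hc, hc'⟩ := ex_min h.refl h.trans h.total (F.erase b) hne
  have hcF := Finset.mem_of_mem_erase hc
  have hcb : c ≠ b := Finset.ne_of_mem_erase hc
  -- the relations of the code
  have key : ∀ u v w, u ≠ w → v ≠ w → (Lx x l u w ↔ Lx x l v w) → (Lx x l w u ↔ Lx x l w v) →
      (pw mul u N = pw mul w N ↔ pw mul v N = pw mul w N) →
      VD.ce (fun i u v => if b2 i = 2 then cc l m N x i (p2 u v) else false) u w v w := by
    intro u v w huw hvw h1 h2 h3 i
    show (if b2 i = 2 then cc l m N x i (pr u w) else false) =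
      (if b2 i = 2 then cc l m N x i (pr v w) else false) ∧
      (if b2 i = 2 then cc l m N x i (pr w u) else false) =
      (if b2 i = 2 then cc l m N x i (pr w v) else false)
    rw [if_pos rfl, if_pos rfl, if_pos rfl, if_pos rfl]
    match i with
    | 0 => exact ⟨Bool.eq_iff_iff.2 h2, Bool.eq_iff_iff.2 h1⟩
    | 1 =>
      refine ⟨Bool.eq_iff_iff.2 ?_, Bool.eq_iff_iff.2 ?_⟩
      · rw [cc_1 h hG hN, cc_1 h hG hN]
        exact h3
      · rw [cc_1 h hG hN, cc_1 h hG hN, eq_comm, eq_comm (a := pw mul w N)]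
        exact h3
    | i + 2 =>
      rcases Nat.even_or_odd' i with ⟨j, rfl | rfl⟩ <;>
        refine ⟨Bool.eq_iff_iff.2 ?_, Bool.eq_iff_iff.2 ?_⟩
      · rw [cc_k h hG hN, cc_k h hG hN]
        exact iff_of_false (fun h => huw h.1) fun h => hvw h.1
      · rw [cc_k h hG hN, cc_k h hG hN]
        exact iff_of_false (fun h => huw h.1.symm) fun h => hvw h.1.symm
      · rw [cc_u h hG hN, cc_u h hG hN]
        exact iff_of_false (fun h => huw h.1) fun h => hvw h.1
      · rw [cc_u h hG hN, cc_u h hG hN]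
        exact iff_of_false (fun h => huw h.1.symm) fun h => hvw h.1.symm
  by_cases hE : ∃ u ∈ F.erase b, pw mul b N = pw mul u N
  · obtain ⟨u, hu, hbu⟩ := hE
    have hbc : pw mul b N = pw mul c N := hconv b c u (hb' c hcF) (hc' u hu) hbu
    refine ⟨{b, c}, ?_, ?_, ?_, ?_⟩
    · intro t ht
      rw [Finset.mem_insert, Finset.mem_singleton] at ht
      rcases ht with rfl | rfl
      · exact hb
      · exact hcF
    · rw [Finset.card_pair hcb.symm]
      omega
    · rw [Finset.card_pair hcb.symm]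
      omega
    · have hlow : ∀ t ∈ ({b, c} : Finset ℕ), ∀ w ∈ F, w ∉ ({b, c} : Finset ℕ) → Lx x l t w ∧
          ¬ Lx x l w t ∧ t ≠ w ∧ (pw mul t N = pw mul w N ↔ pw mul b N = pw mul w N) := by
        intro t ht w hw hwX
        rw [Finset.mem_insert, Finset.mem_singleton, not_or] at hwX
        have hw' : w ∈ F.erase b := Finset.mem_erase.2 ⟨hwX.1, hw⟩
        rw [Finset.mem_insert, Finset.mem_singleton] at ht
        rcases ht with rfl | rfl
        · exact ⟨hb' w hw, fun h1 => hwX.1 (h.anti _ _ h1 (hb' w hw)), Ne.symm hwX.1, Iff.rfl⟩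
        · exact ⟨hc' w hw', fun h1 => hwX.2 (h.anti _ _ h1 (hc' w hw')), Ne.symm hwX.2, by
            rw [hbc]⟩
      intro u hu v hv w hw hwX
      obtain ⟨u1, u2, u3, u4⟩ := hlow u hu w hw hwX
      obtain ⟨v1, v2, v3, v4⟩ := hlow v hv w hw hwX
      exact key u v w u3 v3 (iff_of_true u1 v1) (iff_of_false u2 v2) (u4.trans v4.symm)
  · push Not at hE
    refine ⟨F.erase b, Finset.erase_subset _ _, ?_, ?_, ?_⟩
    · rw [Finset.card_erase_of_mem hb]
      omega
    · rw [Finset.card_erase_of_mem hb]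
      omega
    · intro u hu v hv w hw hwX
      have hwb : w = b := by
        by_contra hwb
        exact hwX (Finset.mem_erase.2 ⟨hwb, hw⟩)
      subst hwb
      have hup : ∀ t ∈ F.erase w, t ≠ w ∧ ¬ Lx x l t w ∧ Lx x l w t := by
        intro t ht
        have h1 := Finset.ne_of_mem_erase ht
        have h2 := hb' t (Finset.mem_of_mem_erase ht)
        exact ⟨h1, fun h3 => h1 (h.anti _ _ h3 h2), h2⟩
      exact key u v w (hup u hu).1 (hup v hv).1 (iff_of_false (hup u hu).2.1 (hup v hv).2.1)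
        (iff_of_true (hup u hu).2.2 (hup v hv).2.2)
        (iff_of_false (fun h => hE u hu h.symm) fun h => hE v hv h.symm)

/-- The dichotomy for the class. -/
theorem vcu_bd {l m : ℕ} (hl : a l = 2) (hm : a m = 3) (har : ∀ i, i ≠ l → i ≠ m → a i ≤ 1)
    (N : ℕ) : VCu (Bd l m N : RS a → Prop) := by
  intro B hB hi hV
  exact vs_exc a b2 _ _ (canon hl hm N) DecG (vs_dec b2) B hB hi fun x hx =>
    ⟨dec_cc (hV x hx), dd_cc hl hm har (hV x hx)⟩

end Pool.Agent.H2.TM
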