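import Pool.Agent.H2.TM.Typ
import Pool.Graph.R_pool_sql_team_seeded_35f281b4.K7.H41.NC.Fo

set_option autoImplicit false

/-!
Compactness for structures on the natural numbers.
-/

namespace Pool.Agent.H2.TM

open FirstOrder FirstOrder.Language
open Pool.Agent.W889.FO

/-- countable infinite structures have isomorphic copies on the natural numbers -/
theorem on_nat {L : FirstOrder.Language.{0, 0}} {α : Type} (M : Type) [L.Structure M]
    (hM : Cardinal.mk M = Cardinal.aleph0) (x : α → M) :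
    ∃ (S : L.Structure ℕ) (v : α → ℕ), (∀ φ : L.Sentence, @Sentence.Realize L ℕ S φ ↔ M ⊨ φ) ∧
      ∀ φ : L.Formula α, @Formula.Realize L ℕ S α φ v ↔ φ.Realize x := by
  obtain ⟨d⟩ := Cardinal.denumerable_iff.2 hM
  let e : M ≃ ℕ := @Denumerable.eqv M d
  let f := e.inducedStructureEquiv (L := L)
  refine ⟨e.inducedStructure, fun i => e (x i), fun φ => ?_, fun φ => ?_⟩
  · exact (@StrongHomClass.realize_sentence L M ℕ _ e.inducedStructure _ _ _ f φ).symm
  · exact @StrongHomClass.realize_formula L M ℕ _ e.inducedStructure α _ _ _ f φ x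

theorem los {L : FirstOrder.Language.{0, 0}} (hL : Countable L.Symbols) {T : L.Theory}
    {α : Type} [Countable α] (φ : ℕ → L.Formula α) (M : ℕ → Type) [∀ n, L.Structure (M n)]
    [∀ n, Infinite (M n)] (v : ∀ n, α → M n) (hT : ∀ n, ∀ ψ ∈ T, M n ⊨ ψ)
    (hv : ∀ n, ∀ i < n, (φ i).Realize (v n)) :
    ∃ (S : L.Structure ℕ) (v : α → ℕ), @Theory.Model L ℕ S T ∧
      ∀ i, @Formula.Realize L ℕ S α (φ i) v := by
  let U : Ultrafilter ℕ := Filter.hyperfilter ℕ
  let x : α → (U : Filter ℕ).Product M := fun i =>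
    ((fun n => v n i : ∀ n, M n) : (U : Filter ℕ).Product M)
  have h1 : ∀ ψ : L.Sentence, (∀ n, M n ⊨ ψ) → (U : Filter ℕ).Product M ⊨ ψ := by
    intro ψ hψ
    refine (Ultraproduct.sentence_realize (M := M) (u := U) ψ).2 ?_
    exact Filter.Eventually.of_forall hψ
  have h2 : ∀ i, (φ i).Realize x := by
    intro i
    refine (Ultraproduct.realize_formula_cast (M := M) (u := U) (φ i) (fun j n => v n j)).2 ?_
    have h3 : ∀ᶠ n in Filter.atTop, i < n := Filter.eventually_gt_atTop i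
    have h4 : (U : Filter ℕ) ≤ Filter.atTop := by
      rw [← Nat.cofinite_eq_atTop]
      exact Filter.hyperfilter_le_cofinite
    exact Filter.Eventually.mono (f := (U : Filter ℕ)) (h4 h3) fun n hn => hv n i hn
  have h3 : (U : Filter ℕ).Product M ⊨ T :=
    (Theory.model_iff T).2 fun ψ hψ => h1 ψ fun n => hT n ψ hψ
  have h4 : Infinite ((U : Filter ℕ).Product M) := by
    rw [← model_infiniteTheory_iff L]
    refine (Theory.model_iff _).2 fun ψ hψ => h1 ψ fun n => ?_
    have : M n ⊨ L.infiniteTheory := (model_infiniteTheory_iff L).2 inferInstance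
    exact (Theory.model_iff _).1 this ψ hψ
  obtain ⟨N, hN1, hN2⟩ := exists_elementarySubstructure_card_eq L (Set.range x) Cardinal.aleph0.{0}
    le_rfl (by
      simp only [Cardinal.lift_aleph0, Cardinal.lift_le_aleph0]
      exact (Set.countable_range x).le_aleph0) (by
      have : L.card ≤ Cardinal.aleph0 := Cardinal.mk_le_aleph0_iff.2 hL
      simpa using this) (by
      simp)
  have hN3 : Cardinal.mk N = Cardinal.aleph0 := by simpa using hN2
  let y : α → N := fun i => ⟨x i, hN1 ⟨i, rfl⟩⟩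
  obtain ⟨S', v', h5, h6⟩ := on_nat (L := L) N hN3 y
  refine ⟨S', v', ax_iff.2 fun ψ hψ => ?_, fun i => ?_⟩
  · rw [h5]
    exact (N.realize_sentence ψ).2 ((Theory.model_iff T).1 h3 ψ hψ)
  · rw [h6]
    exact (N.subtype.map_formula (φ i) y).1 (h2 i)

/-- compactness -/
theorem cmpt {L : FirstOrder.Language.{0, 0}} (hL : Countable L.Symbols) {T : L.Theory}
    {α : Type} [Countable α] (φ : ℕ → L.Formula α)
    (h : ∀ n, ∃ (S : L.Structure ℕ) (v : α → ℕ), @Theory.Model L ℕ S T ∧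
      ∀ i < n, @Formula.Realize L ℕ S α (φ i) v) :
    ∃ (S : L.Structure ℕ) (v : α → ℕ), @Theory.Model L ℕ S T ∧
      ∀ i, @Formula.Realize L ℕ S α (φ i) v := by
  choose S v hT hv using h
  exact @los L hL T α _ φ (fun _ => ℕ) S (fun _ => inferInstance) v
    (fun n => ax_iff.1 (hT n)) hv

/-- The reduction to relational languages, for one theory, with the exact class of models. -/
theorem reduceT' (L : FirstOrder.Language.{0, 0}) (T : L.Theory)
    (hV : ∀ T' : (St0.LF L).Theory, (∀ S : (St0.LF L).Structure ℕ,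
      @Theory.Model (St0.LF L) ℕ S T' ↔ St0.W S ∧ @Theory.Model L ℕ (St0.D S) T) →
        Vaught (St0.LF L) T') : VaughtF L T := by
  obtain ⟨T', hT'⟩ := St0.ax_theory T
  rcases hV T' hT' with ⟨g, hg⟩ | ⟨f, hf1, hf2, hf3⟩
  · left
    refine ⟨fun n => St0.D (g n), fun M hM => ?_⟩
    obtain ⟨S, hS, hi⟩ := St0.ex M
    obtain ⟨n, hn⟩ := hg S ((hT' S).2 ⟨hS, hi.symm.model hM⟩)
    obtain ⟨T'', hT''⟩ := St0.ax_W L
    have hgn : St0.W (g n) := (hT'' (g n)).1 (SIso.model hn ((hT'' S).2 hS))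
    exact ⟨n, hi.symm.trans (St0.iso_down hS hgn hn)⟩
  · right
    have hW : ∀ x, St0.W (f x) := fun x => ((hT' _).1 (hf1 x)).1
    refine ⟨fun x => St0.D (f x), fun x => ((hT' _).1 (hf1 x)).2,
      fun x y hxy => hf2 x y (St0.iso_up (hW x) (hW y) hxy), fun n R a => hf3 n (St0.RF.rel R) a,
      fun n F a b => ?_⟩
    have : {x : ℕ → Bool |
        @FirstOrder.Language.Structure.funMap L ℕ (St0.D (f x)) n F a = b} =
        {x | @Structure.RelMap (St0.LF L) ℕ (f x) _ (St0.RF.fn F)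
          (Fin.snoc (α := fun _ => ℕ) a b)} := by
      ext x
      exact St0.fun_iff (hW x) F a b
    rw [this]
    exact (hf3 _ (St0.RF.fn F) _).isOpen

open Pool.Agent.H533R2.VO (RS RIso Dich)
open Pool.Agent.R617.VT (ar_e dc cd Nrm Md md_meas md_iso rel_dc vaught_of siso_of_iso nrm_cd
  siso_dc_cd)

/-- Uncountably many types give perfectly many models. -/
theorem vaught_types {L : FirstOrder.Language.{0, 0}} (hL : Countable L.Symbols) (T : L.Theory)
    (φ : ℕ → L.Formula (Fin 2))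
    (hu : ¬ {t : ℕ → Bool | ∃ (S : L.Structure ℕ) (v : Fin 2 → ℕ), @Theory.Model L ℕ S T ∧
      ∀ n, t n = true ↔ @Formula.Realize L ℕ S (Fin 2) (φ n) v}.Countable) : VaughtF L T := by
  refine reduceT' L T fun T' hT' => ?_
  haveI : Countable (Σ n, (St0.LF L).Relations n) := St0.countable_LF
  obtain ⟨e, he⟩ := exists_injective_nat (Σ n, (St0.LF L).Relations n)
  have htr : ∀ n, ∃ ψ : (St0.LF L).Formula (Fin 2), ∀ S : (St0.LF L).Structure ℕ, St0.W S →
      ∀ v, @Formula.Realize (St0.LF L) ℕ S _ ψ v ↔ @Formula.Realize L ℕ (St0.D S) _ (φ n) v := by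
    intro n
    obtain ⟨ψ, hψ⟩ := (St0.trans (φ n : L.BoundedFormula (Fin 2) 0)).sub
      (Sum.elim id (fun x => x.elim0) : Fin 2 ⊕ Fin 0 → Fin 2)
    refine ⟨ψ, fun S hS v => (hψ S hS v).trans ?_⟩
    have key : ∀ (a' b' : Fin 0 → ℕ),
        @BoundedFormula.Realize L ℕ (St0.D S) _ _ (φ n) v a' ↔
          @BoundedFormula.Realize L ℕ (St0.D S) _ _ (φ n) v b' := by
      intro a' b'
      rw [Subsingleton.elim a' b']
    exact key _ _
  choose ψ hψ using htr
  have hat : ∀ (n : ℕ) (R : (St0.LF L).Relations n) (a : Fin n → ℕ),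
      Pool.Agent.W889.VC.BP (fun x : RS (R617.VT.ar e) =>
        @Structure.RelMap (St0.LF L) ℕ (dc he x) n R a) := by
    intro n R a
    exact bp_at _ _
  refine vaught_of he (Or.inr (dich_types (Md he T') (md_meas he T')
    (fun n x u v => @Formula.Realize (St0.LF L) ℕ (dc he x) _ (ψ n) ![u, v])
    (fun n u v => bp_realize hat (ψ n) _ _) ?_ ?_))
  · intro σ x y hσ n u v
    obtain ⟨f, hf⟩ := siso_of (S := dc he x) (S' := dc he y) σ (fun n R v => by
      rw [rel_dc, rel_dc]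
      have := hσ (e ⟨n, R⟩) (fun k => v (Fin.cast (ar_e he ⟨n, R⟩) k))
      rw [← this]
      exact Iff.rfl)
    have h1 := @StrongHomClass.realize_formula (St0.LF L) ℕ ℕ (dc he x) (dc he y) (Fin 2) _ _ _ f
      (ψ n) ![u, v]
    have h2 : (fun i => f (![u, v] i)) = ![σ u, σ v] := by
      funext i
      fin_cases i <;> exact hf _
    have h3 : (⇑f ∘ ![u, v]) = ![σ u, σ v] := h2
    rw [h3] at h1
    exact h1.symm
  · intro hc
    apply hu
    refine hc.mono ?_
    rintro t ⟨S, v, hS, hv⟩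
    obtain ⟨S1, hW, hi⟩ := St0.ex S
    obtain ⟨g⟩ := siso_dc_cd he S1
    have h1 : @Theory.Model (St0.LF L) ℕ S1 T' := (hT' S1).2 ⟨hW, hi.symm.model hS⟩
    obtain ⟨f⟩ := hi
    let w : Fin 2 → ℕ := fun i => (@FirstOrder.Language.Equiv.symm L ℕ ℕ (St0.D S1) S f) (v i)
    have hw : (⇑f ∘ w) = v := by
      funext i
      exact @FirstOrder.Language.Equiv.apply_symm_apply L ℕ ℕ (St0.D S1) S f (v i)
    refine ⟨cd he S1, ⟨nrm_cd he S1, (siso_dc_cd he S1).model h1⟩, g (w 0), g (w 1), fun n => ?_⟩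
    rw [hv n]
    have h2 := @StrongHomClass.realize_formula L ℕ ℕ (St0.D S1) S (Fin 2) _ _ _ f (φ n) w
    rw [hw] at h2
    have h3 := @StrongHomClass.realize_formula (St0.LF L) ℕ ℕ S1 (dc he (cd he S1)) (Fin 2) _ _ _ g
      (ψ n) w
    have h4 : (⇑g ∘ w) = ![g (w 0), g (w 1)] := by
      funext i
      fin_cases i <;> rfl
    rw [h4] at h3
    rw [h2, ← hψ n S1 hW, ← h3]

end Pool.Agent.H2.TM
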