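import Pool.Agent.H2.TM.Wcl
import Mathlib.Logic.Denumerable

set_option autoImplicit false

/-!
The interpretation of the pairs of linear orders.
-/

namespace Pool.Agent.H2.TM

open FirstOrder FirstOrder.Language
open Pool.Agent.W889.FO Pool.Agent.W889.VC
open Pool.Agent.W889.FO.St0 (RF LF)
open Pool.Agent.W889.FO.StE (LG)
open Pool.Agent.TH686.FO

namespace El

variable {V V' : Type}

/-- the induced map -/
def map (f : V → V') : El V → El V'
  | one => one
  | top => top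
  | A u i => A (f u) i
  | B u i => B (f u) i
  | mid => mid
  | y u => y (f u)
  | z => z

/-- the induced bijection -/
def mapE (f : V ≃ V') : El V ≃ El V' where
  toFun := map f
  invFun := map f.symm
  left_inv := fun a => by cases a <;> simp [map]
  right_inv := fun a => by cases a <;> simp [map]

variable {l1 l2 : V → V → Prop} {l1' l2' : V' → V' → Prop} (f : V ≃ V')
  (e1 : ∀ u v, l1 u v ↔ l1' (f u) (f v)) (e2 : ∀ u v, l2 u v ↔ l2' (f u) (f v))

theorem rk_map (a : El V) : rk (map f a) = rk a := by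
  cases a <;> rfl

include e1 e2 in
theorem le_map (a b : El V) : le l1 l2 a b ↔ le l1' l2' (map f a) (map f b) := by
  unfold le
  rw [rk_map, rk_map]
  cases a <;> cases b <;> simp [map, inn, e1, e2]

include e1 in
theorem pq_map (u : V) (i : Bool) (v : V) (j : Bool) :
    map f (pq l1 u i v j) = pq l1' (f u) i (f v) j := by
  unfold pq
  rw [e1, ← f.apply_eq_iff_eq (x := u) (y := v)]
  split_ifs <;> rfl

include e1 in
theorem mul_map (a b : El V) : map f (mul l1 a b) = mul l1' (map f a) (map f b) := by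
  cases a <;> cases b <;> first | rfl | exact pq_map f e1 _ _ _ _

theorem leF_congr {t s : Fin 9} {u v : V} {u' v' : V'} (h1 : l1 u v ↔ l1' u' v')
    (h1' : l1 v u ↔ l1' v' u') (h2 : l2 u v ↔ l2' u' v') (h3 : u = v ↔ u' = v') :
    leF l1 l2 t s u v ↔ leF l1' l2' t s u' v' := by
  unfold leF
  rw [h1, h1', h2, h3]

theorem mulF_congr {t s r : Fin 9} {u v w : V} {u' v' w' : V'} (h1 : l1 u v ↔ l1' u' v')
    (h1' : l1 v u ↔ l1' v' u') (h3 : u = v ↔ u' = v') (h4 : v = w ↔ v' = w')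
    (h5 : u = w ↔ u' = w') : mulF l1 t s r u v w ↔ mulF l1' t s r u' v' w' := by
  unfold mulF pqF
  rw [h1, h1', h3, eq_comm (a := v) (b := u), eq_comm (a := v') (b := u'), h3,
    eq_comm (a := w) (b := u), eq_comm (a := w') (b := u'), h5,
    eq_comm (a := w) (b := v), eq_comm (a := w') (b := v'), h4]

end El

section theta

variable {S : (LF LM).Structure ℕ} (h : Wm S)

/-- the underlying set -/
abbrev dV (S : (LF LM).Structure ℕ) : Type := {u // dS S u}

/-- the first order on the underlying set -/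
abbrev l1V (S : (LF LM).Structure ℕ) (u v : dV S) : Prop := r1S S u v

/-- the second order on the underlying set -/
abbrev l2V (S : (LF LM).Structure ℕ) (u v : dV S) : Prop := r2S S u v

include h

theorem Wm.L1 : El.Lin (l1V S) := ⟨fun u => h.lin1.irrefl u u.2, fun u v w =>
  h.lin1.trans u v w u.2 v.2 w.2, fun u v huv => h.lin1.total u v u.2 v.2 fun h' =>
    huv (Subtype.ext h')⟩

theorem Wm.L2 : El.Lin (l2V S) := ⟨fun u => h.lin2.irrefl u u.2, fun u v w =>
  h.lin2.trans u v w u.2 v.2 w.2, fun u v huv => h.lin2.total u v u.2 v.2 fun h' =>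
    huv (Subtype.ext h')⟩

/-- the structure is isomorphic to the monoid of its pair of orders -/
theorem Wm.theta : ∃ θ : ℕ ≃ El (dV S), (∀ t (u : dV S) a, kS S t u a ↔ θ a = El.el t u) ∧
    (∀ a b, lo S a b ↔ El.le (l1V S) (l2V S) (θ a) (θ b)) ∧
    ∀ a b c, mg S a b c ↔ El.mul (l1V S) (θ a) (θ b) = θ c := by
  choose t u hu hk using h.cov
  let f : ℕ → El (dV S) := fun a => El.el (t a) ⟨u a, hu a⟩
  have key : ∀ (s : Fin 9) (v : dV S) a, kS S s v a ↔ f a = El.el s v := by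
    intro s v a
    show _ ↔ El.el (t a) ⟨u a, hu a⟩ = El.el s v
    rw [El.el_inj]
    constructor
    · intro h1
      obtain ⟨h2, h3⟩ := h.uq _ _ _ _ _ (hu a) v.2 (hk a) h1
      exact ⟨h2, h3.imp id fun h4 => Subtype.ext h4⟩
    · rintro ⟨h1, h2 | h2⟩
      · rw [← h1]
        exact h.cst _ _ _ _ h2 (hu a) v.2 (hk a)
      · rw [← h1, ← h2]
        exact hk a
  have hinj : Function.Injective f := by
    intro a b hab
    have h1 : kS S (t a) (u a) b := (key (t a) ⟨u a, hu a⟩ b).2 hab.symm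
    exact h.un _ _ _ _ (hu a) (hk a) h1
  haveI : Nonempty (dV S) := ⟨⟨u 0, hu 0⟩⟩
  have hsur : Function.Surjective f := by
    intro x
    obtain ⟨s, v, rfl⟩ := El.el_surj x
    obtain ⟨a, ha⟩ := h.ex s v v.2
    exact ⟨a, (key s v a).1 ha⟩
  refine ⟨Equiv.ofBijective f ⟨hinj, hsur⟩, key, fun a b => ?_, fun a b c => ?_⟩
  · show _ ↔ El.le (l1V S) (l2V S) (El.el (t a) ⟨u a, hu a⟩) (El.el (t b) ⟨u b, hu b⟩)
    rw [El.le_iff, h.le _ _ _ _ _ _ (hu a) (hu b) (hk a) (hk b)]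
    exact El.leF_congr Iff.rfl Iff.rfl Iff.rfl (by simp)
  · show _ ↔ El.mul (l1V S) (El.el (t a) ⟨u a, hu a⟩) (El.el (t b) ⟨u b, hu b⟩) =
      El.el (t c) ⟨u c, hu c⟩
    rw [El.mul_iff, h.mul _ _ _ _ _ _ _ _ _ (hu a) (hu b) (hu c) (hk a) (hk b) (hk c)]
    exact El.mulF_congr Iff.rfl Iff.rfl (by simp) (by simp) (by simp)

theorem Wm.inf (N : ℕ) : ∃ u, N ≤ u ∧ dS S u := by
  by_contra hcon
  push Not at hcon
  have hfin : Finite (dV S) := by
    refine Finite.of_injective (β := Fin N) (fun u => ⟨u, ?_⟩) ?_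
    · by_contra hu
      exact hcon u (not_lt.1 hu) u.2
    · intro u v huv
      exact Subtype.ext (Fin.mk.inj huv)
  obtain ⟨t, u, hu, -⟩ := h.cov 0
  haveI : Nonempty (dV S) := ⟨⟨u, hu⟩⟩
  obtain ⟨θ, -⟩ := h.theta
  have hfin2 : Finite (El (dV S)) := by
    refine Finite.of_surjective (α := Fin 9 × dV S) (fun p => El.el p.1 p.2) fun a => ?_
    obtain ⟨t, u, htu⟩ := El.el_surj a
    exact ⟨(t, u), htu⟩
  have : Finite ℕ := Finite.of_equiv _ θ.symm
  exact not_finite ℕ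

end theta

/-- the interpretation -/
def IM : Itp L2 (LF LM) where
  W := Wm
  axW := ax_Wm
  dom := dS
  rel := fun {n} Q => match n, Q with
    | _, R2.fst => fun S v => r1S S (v 0) (v 1)
    | _, R2.snd => fun S v => r2S S (v 0) (v 1)
  fdom := (fu_dS ()).mono fun _ _ => trivial
  frel := fun {n} Q => match n, Q with
    | _, R2.fst => (fb_r1S 0 1).mono fun _ _ => trivial
    | _, R2.snd => (fb_r2S 0 1).mono fun _ _ => trivial
  inf := fun _ h N => Wm.inf h N

theorem IM_up {S S' : (LF LM).Structure ℕ} (h : Wm S) (h' : Wm S')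
    (hi : SIso (IM.D S) (IM.D S')) : SIso S S' := by
  obtain ⟨π, hπ⟩ := (IM.D_iso_iff h h').1 hi
  have e1 : ∀ u v : dV S, l1V S u v ↔ l1V S' (π u) (π v) := fun u v => hπ R2.fst ![u, v]
  have e2 : ∀ u v : dV S, l2V S u v ↔ l2V S' (π u) (π v) := fun u v => hπ R2.snd ![u, v]
  obtain ⟨θ, -, k1, k2⟩ := h.theta
  obtain ⟨θ', -, k1', k2'⟩ := h'.theta
  let π' : dV S ≃ dV S' := π
  let σ : Equiv.Perm ℕ := (θ.trans (El.mapE π')).trans θ'.symm
  have hσ : ∀ a, θ' (σ a) = El.map π' (θ a) := fun a => θ'.apply_symm_apply _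
  obtain ⟨f, -⟩ := siso_of (S := S) (S' := S') σ (fun n Q v => by
    cases Q with
    | rel R =>
      cases R with
      | le =>
        have h1 : lo S' (σ (v 0)) (σ (v 1)) ↔ lo S (v 0) (v 1) := by
          rw [k1', k1, hσ, hσ]
          exact (El.le_map π' e1 e2 _ _).symm
        have e3 : (fun i => σ (v i)) = ![σ (v 0), σ (v 1)] := by
          funext i
          fin_cases i <;> rfl
        have e4 : v = ![v 0, v 1] := by
          funext i
          fin_cases i <;> rfl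
        rw [e3]
        conv_rhs => rw [e4]
        exact h1
    | fn F =>
      cases F with
      | mul =>
        have h1 : mg S' (σ (v 0)) (σ (v 1)) (σ (v 2)) ↔ mg S (v 0) (v 1) (v 2) := by
          rw [k2', k2, hσ, hσ, hσ, ← El.mul_map π' e1]
          exact (El.mapE π').apply_eq_iff_eq
        have e3 : (fun i => σ (v i)) = ![σ (v 0), σ (v 1), σ (v 2)] := by
          funext i
          fin_cases i <;> rfl
        have e4 : v = ![v 0, v 1, v 2] := by
          funext i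
          fin_cases i <;> rfl
        rw [e3]
        conv_rhs => rw [e4]
        exact h1)
  exact ⟨f⟩

/-! ### existence -/

theorem equiv_El : Nonempty (ℕ ≃ El ℕ) := by
  have h1 : Countable (El ℕ) := by
    refine Function.Surjective.countable (α := Fin 9 × ℕ) (f := fun p => El.el p.1 p.2) fun a => ?_
    obtain ⟨t, u, htu⟩ := El.el_surj a
    exact ⟨(t, u), htu⟩
  have h2 : Infinite (El ℕ) := Infinite.of_injective (fun n : ℕ => El.y n) fun a b h => by
    injection h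
  obtain ⟨d⟩ := nonempty_denumerable (El ℕ)
  exact ⟨(@Denumerable.eqv _ d).symm⟩

/-- the code of a pair of orders -/
@[reducible] noncomputable def ofE (l1 l2 : ℕ → ℕ → Prop) (e : ℕ ≃ El ℕ) :
    (LF LM).Structure ℕ where
  funMap := fun {_} f => isEmptyElim f
  RelMap := fun {n} Q => match n, Q with
    | _, @RF.rel _ n R => match n, R with
      | _, RM.le => fun v => El.le l1 l2 (e (v 0)) (e (v 1))
    | _, @RF.fn _ n F => match n, F with
      | _, FM.mul => fun v => El.mul l1 (e (v 0)) (e (v 1)) = e (v 2)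

theorem lo_of (l1 l2 : ℕ → ℕ → Prop) (e : ℕ ≃ El ℕ) (a b : ℕ) :
    lo (ofE l1 l2 e) a b ↔ El.le l1 l2 (e a) (e b) := Iff.rfl

theorem mg_of (l1 l2 : ℕ → ℕ → Prop) (e : ℕ ≃ El ℕ) (a b c : ℕ) :
    mg (ofE l1 l2 e) a b c ↔ El.gE l1 (e a) (e b) (e c) := Iff.rfl

section code

variable {l1 l2 : ℕ → ℕ → Prop} (h1 : El.Lin l1) (h2 : El.Lin l2) (e : ℕ ≃ El ℕ)

include h1 h2

theorem dS_of (u : ℕ) : dS (ofE l1 l2 e) u ↔ ∃ n, e u = El.A n true :=
  (dm_tr e (lo_of l1 l2 e) (mg_of l1 l2 e) u).trans (El.dm_iff h1 h2 _)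

theorem kS_of (t : Fin 9) {u n : ℕ} (hu : e u = El.A n true) (a : ℕ) :
    kS (ofE l1 l2 e) t u a ↔ e a = El.el t n := by
  refine (K_tr e (lo_of l1 l2 e) (mg_of l1 l2 e) t u a).trans ?_
  rw [hu]
  exact El.K_iff h1 h2 t n _

theorem r1_of {u v m n : ℕ} (hu : e u = El.A m true) (hv : e v = El.A n true) :
    r1S (ofE l1 l2 e) u v ↔ l1 m n := by
  refine (r1_tr e (lo_of l1 l2 e) (mg_of l1 l2 e) u v).trans ?_
  rw [hu, hv]
  exact El.r1_iff h1 h2 m n

theorem r2_of {u v m n : ℕ} (hu : e u = El.A m true) (hv : e v = El.A n true) :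
    r2S (ofE l1 l2 e) u v ↔ l2 m n := by
  refine (r2_tr e (lo_of l1 l2 e) (mg_of l1 l2 e) u v).trans ?_
  rw [hu, hv]
  exact El.r2_iff h1 h2 m n

omit h1 h2 in
theorem eq_of {u v m n : ℕ} (hu : e u = El.A m true) (hv : e v = El.A n true) :
    u = v ↔ m = n := by
  rw [← e.apply_eq_iff_eq, hu, hv]
  simp

theorem Wm_of : Wm (ofE l1 l2 e) where
  ex := by
    intro t u hu
    obtain ⟨n, hn⟩ := (dS_of h1 h2 e u).1 hu
    exact ⟨e.symm (El.el t n), (kS_of h1 h2 e t hn _).2 (e.apply_symm_apply _)⟩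
  un := by
    intro t u a b hu ha hb
    obtain ⟨n, hn⟩ := (dS_of h1 h2 e u).1 hu
    rw [kS_of h1 h2 e t hn] at ha hb
    exact e.injective (ha.trans hb.symm)
  cov := by
    intro a
    obtain ⟨t, n, htn⟩ := El.el_surj (e a)
    refine ⟨t, e.symm (El.A n true), (dS_of h1 h2 e _).2 ⟨n, e.apply_symm_apply _⟩, ?_⟩
    rw [kS_of h1 h2 e t (e.apply_symm_apply _)]
    exact htn.symm
  uq := by
    intro t s u v a hu hv ha hb
    obtain ⟨m, hm⟩ := (dS_of h1 h2 e u).1 hu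
    obtain ⟨n, hn⟩ := (dS_of h1 h2 e v).1 hv
    rw [kS_of h1 h2 e t hm] at ha
    rw [kS_of h1 h2 e s hn] at hb
    obtain ⟨h3, h4⟩ := (El.el_inj t s m n).1 (ha.symm.trans hb)
    exact ⟨h3, h4.imp id (eq_of e hm hn).2⟩
  cst := by
    intro t u v a ht hu hv ha
    obtain ⟨m, hm⟩ := (dS_of h1 h2 e u).1 hu
    obtain ⟨n, hn⟩ := (dS_of h1 h2 e v).1 hv
    rw [kS_of h1 h2 e t hm] at ha
    rw [kS_of h1 h2 e t hn, ha, El.el_inj]
    exact ⟨rfl, Or.inl ht⟩
  le := by
    intro t s u v a b hu hv ha hb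
    obtain ⟨m, hm⟩ := (dS_of h1 h2 e u).1 hu
    obtain ⟨n, hn⟩ := (dS_of h1 h2 e v).1 hv
    rw [kS_of h1 h2 e t hm] at ha
    rw [kS_of h1 h2 e s hn] at hb
    rw [lo_of, ha, hb, El.le_iff]
    exact El.leF_congr (r1_of h1 h2 e hm hn).symm (r1_of h1 h2 e hn hm).symm
      (r2_of h1 h2 e hm hn).symm (eq_of e hm hn).symm
  mul := by
    intro t s r u v w a b c hu hv hw ha hb hc
    obtain ⟨m, hm⟩ := (dS_of h1 h2 e u).1 hu
    obtain ⟨n, hn⟩ := (dS_of h1 h2 e v).1 hv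
    obtain ⟨k, hk⟩ := (dS_of h1 h2 e w).1 hw
    rw [kS_of h1 h2 e t hm] at ha
    rw [kS_of h1 h2 e s hn] at hb
    rw [kS_of h1 h2 e r hk] at hc
    rw [mg_of, ha, hb, hc]
    unfold El.gE
    rw [El.mul_iff]
    exact El.mulF_congr (r1_of h1 h2 e hm hn).symm (r1_of h1 h2 e hn hm).symm
      (eq_of e hm hn).symm (eq_of e hn hk).symm (eq_of e hm hk).symm
  lin1 := by
    refine ⟨fun u hu => ?_, fun u v w hu hv hw => ?_, fun u v hu hv => ?_⟩
    · obtain ⟨m, hm⟩ := (dS_of h1 h2 e u).1 hu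
      rw [r1_of h1 h2 e hm hm]
      exact h1.irrefl m
    · obtain ⟨m, hm⟩ := (dS_of h1 h2 e u).1 hu
      obtain ⟨n, hn⟩ := (dS_of h1 h2 e v).1 hv
      obtain ⟨k, hk⟩ := (dS_of h1 h2 e w).1 hw
      rw [r1_of h1 h2 e hm hn, r1_of h1 h2 e hn hk, r1_of h1 h2 e hm hk]
      exact h1.trans m n k
    · obtain ⟨m, hm⟩ := (dS_of h1 h2 e u).1 hu
      obtain ⟨n, hn⟩ := (dS_of h1 h2 e v).1 hv
      rw [r1_of h1 h2 e hm hn, r1_of h1 h2 e hn hm, ne_eq, eq_of e hm hn]
      exact h1.total m n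
  lin2 := by
    refine ⟨fun u hu => ?_, fun u v w hu hv hw => ?_, fun u v hu hv => ?_⟩
    · obtain ⟨m, hm⟩ := (dS_of h1 h2 e u).1 hu
      rw [r2_of h1 h2 e hm hm]
      exact h2.irrefl m
    · obtain ⟨m, hm⟩ := (dS_of h1 h2 e u).1 hu
      obtain ⟨n, hn⟩ := (dS_of h1 h2 e v).1 hv
      obtain ⟨k, hk⟩ := (dS_of h1 h2 e w).1 hw
      rw [r2_of h1 h2 e hm hn, r2_of h1 h2 e hn hk, r2_of h1 h2 e hm hk]
      exact h2.trans m n k
    · obtain ⟨m, hm⟩ := (dS_of h1 h2 e u).1 hu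
      obtain ⟨n, hn⟩ := (dS_of h1 h2 e v).1 hv
      rw [r2_of h1 h2 e hm hn, r2_of h1 h2 e hn hm, ne_eq, eq_of e hm hn]
      exact h2.total m n

end code

theorem IM_ex (M : L2.Structure ℕ) (h1 : El.Lin (g1 M)) (h2 : El.Lin (g2 M)) :
    ∃ S, Wm S ∧ SIso (IM.D S) M := by
  obtain ⟨e⟩ := equiv_El
  refine ⟨ofE (g1 M) (g2 M) e, Wm_of h1 h2 e, ?_⟩
  let f : ℕ → {u // dS (ofE (g1 M) (g2 M) e) u} := fun n =>
    ⟨e.symm (El.A n true), (dS_of h1 h2 e _).2 ⟨n, e.apply_symm_apply _⟩⟩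
  have hf : Function.Bijective f := by
    constructor
    · intro m n hmn
      have h3 : e.symm (El.A m true) = e.symm (El.A n true) := congrArg Subtype.val hmn
      have h4 := e.symm.injective h3
      injection h4
    · intro u
      obtain ⟨n, hn⟩ := (dS_of h1 h2 e _).1 u.2
      refine ⟨n, Subtype.ext ?_⟩
      show e.symm (El.A n true) = u.1
      rw [← hn, e.symm_apply_apply]
  let π : ℕ ≃ {u // dS (ofE (g1 M) (g2 M) e) u} := Equiv.ofBijective f hf
  have hπ : ∀ n, e (π n) = El.A n true := fun n => e.apply_symm_apply _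
  have ev : ∀ v : Fin 2 → ℕ, v = ![v 0, v 1] := by
    intro v
    funext i
    fin_cases i <;> rfl
  refine IM.D_iso (S := ofE (g1 M) (g2 M) e) (Wm_of h1 h2 e) π fun {n} Q u => ?_
  cases Q with
  | fst =>
    show _ ↔ r1S (ofE (g1 M) (g2 M) e) (π (u 0)) (π (u 1))
    rw [r1_of h1 h2 e (hπ _) (hπ _)]
    conv_lhs => rw [ev u]
    exact Iff.rfl
  | snd =>
    show _ ↔ r2S (ofE (g1 M) (g2 M) e) (π (u 0)) (π (u 1))
    rw [r2_of h1 h2 e (hπ _) (hπ _)]
    conv_lhs => rw [ev u]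
    exact Iff.rfl

/-- The reduction to the codes. -/
theorem red_code (hV : ∀ T' : (LF LM).Theory, (∀ S : (LF LM).Structure ℕ,
    @Theory.Model (LF LM) ℕ S T' → Wm S) → Vaught (LF LM) T') (T : LG.Theory)
    [Countable (Σ n, L2.Relations n)] : Vaught LG T := by
  refine red_pl (fun T1 hT1 => ?_) T
  have hj : Itp.Cnt IM Unit (fun _ => ()) :=
    ⟨fun S S' h h' hi _ => IM_up h h' hi, fun f _ _ c => BP.const _⟩
  refine IM.transfer hj T1 (fun M hM => ?_) fun T' hT' => hV T' fun S hS => (hT' S hS).1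
  obtain ⟨k1, k2⟩ := hT1 M hM
  exact IM_ex M ⟨k1.irrefl, k1.trans, k1.total⟩ ⟨k2.irrefl, k2.trans, k2.total⟩

end Pool.Agent.H2.TM
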