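import Pool.Agent.H2.TM.Tag
import Mathlib.Logic.Equiv.Basic

set_option autoImplicit false

/-!
The first-order descriptions of the elements with the various tags.
-/

namespace Pool.Agent.H2.TM

section gen

variable {α : Type} (le : α → α → Prop) (g : α → α → α → Prop)

/-- the greatest element -/
def isOne (a : α) : Prop := ∀ b, le b a

/-- the least element -/
def isZ (a : α) : Prop := ∀ b, le a b

/-- `b` is the immediate predecessor of `a` -/
def prd (a b : α) : Prop := le b a ∧ b ≠ a ∧ ∀ c, le b c → le c a → c = b ∨ c = a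

/-- `b` is the companion of `u` -/
def cmp (u b : α) : Prop := ¬ isOne le b ∧ ∃ d, g u b d ∧ ¬ isZ le d ∧ ¬ g u u d

/-- the domain -/
def dm (u : α) : Prop := ¬ isOne le u ∧ (∃ c, g u u c ∧ ¬ isZ le c) ∧ ∃ b, cmp le g u b

/-- `a` is the copy of `u` with the tag `t` -/
def K (t : Fin 9) (u a : α) : Prop :=
  match t with
  | 0 => isOne le a
  | 1 => ∃ t, isOne le t ∧ prd le t a
  | 2 => a = u
  | 3 => prd le u a
  | 4 => cmp le g u a
  | 5 => ∃ b, cmp le g u b ∧ prd le b a
  | 6 => g u u a
  | 7 => ∃ b, cmp le g u b ∧ g u b a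
  | 8 => isZ le a

/-- the first order -/
def r1 (u v : α) : Prop := le u v ∧ u ≠ v

/-- the second order -/
def r2 (u v : α) : Prop := ∃ a b, K le g 7 u a ∧ K le g 7 v b ∧ le a b ∧ a ≠ b

end gen

section tra

variable {α β : Type} {le : α → α → Prop} {g : α → α → α → Prop} {le' : β → β → Prop}
  {g' : β → β → β → Prop} (θ : α ≃ β) (hle : ∀ a b, le a b ↔ le' (θ a) (θ b))
  (hg : ∀ a b c, g a b c ↔ g' (θ a) (θ b) (θ c))

include hle

theorem isOne_tr (a : α) : isOne le a ↔ isOne le' (θ a) := θ.forall_congr fun b => hle b a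

theorem isZ_tr (a : α) : isZ le a ↔ isZ le' (θ a) := θ.forall_congr fun b => hle a b

theorem prd_tr (a b : α) : prd le a b ↔ prd le' (θ a) (θ b) := by
  refine and_congr (hle _ _) (and_congr (not_congr θ.apply_eq_iff_eq.symm) ?_)
  exact θ.forall_congr fun c => imp_congr (hle _ _) (imp_congr (hle _ _)
    (or_congr θ.apply_eq_iff_eq.symm θ.apply_eq_iff_eq.symm))

include hg

theorem cmp_tr (u b : α) : cmp le g u b ↔ cmp le' g' (θ u) (θ b) :=
  and_congr (not_congr (isOne_tr θ hle _)) <| θ.exists_congr fun _ => and_congr (hg _ _ _) <|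
    and_congr (not_congr (isZ_tr θ hle _)) (not_congr (hg _ _ _))

theorem dm_tr (u : α) : dm le g u ↔ dm le' g' (θ u) :=
  and_congr (not_congr (isOne_tr θ hle _)) <| and_congr (θ.exists_congr fun _ =>
    and_congr (hg _ _ _) (not_congr (isZ_tr θ hle _))) <| θ.exists_congr fun _ =>
      cmp_tr θ hle hg _ _

theorem K_tr (t : Fin 9) (u a : α) : K le g t u a ↔ K le' g' t (θ u) (θ a) :=
  match t with
  | 0 => isOne_tr θ hle a
  | 1 => θ.exists_congr fun _ => and_congr (isOne_tr θ hle _) (prd_tr θ hle _ _)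
  | 2 => θ.apply_eq_iff_eq.symm
  | 3 => prd_tr θ hle _ _
  | 4 => cmp_tr θ hle hg _ _
  | 5 => θ.exists_congr fun _ => and_congr (cmp_tr θ hle hg _ _) (prd_tr θ hle _ _)
  | 6 => hg _ _ _
  | 7 => θ.exists_congr fun _ => and_congr (cmp_tr θ hle hg _ _) (hg _ _ _)
  | 8 => isZ_tr θ hle a

theorem r1_tr (u v : α) : r1 le u v ↔ r1 le' (θ u) (θ v) :=
  and_congr (hle _ _) (not_congr θ.apply_eq_iff_eq.symm)

theorem r2_tr (u v : α) : r2 le g u v ↔ r2 le' g' (θ u) (θ v) :=
  θ.exists_congr fun _ => θ.exists_congr fun _ => and_congr (K_tr θ hle hg _ _ _) <|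
    and_congr (K_tr θ hle hg _ _ _) <| and_congr (hle _ _) (not_congr θ.apply_eq_iff_eq.symm)

end tra

namespace El

variable {V : Type} {l1 l2 : V → V → Prop} (h1 : Lin l1) (h2 : Lin l2)

/-- the graph of the multiplication -/
def gE (l1 : V → V → Prop) (a b c : El V) : Prop := mul l1 a b = c

include h1 h2

theorem isOne_iff (a : El V) : isOne (le l1 l2) a ↔ a = one := by
  constructor
  · exact fun h => (le_anti h1 h2 (h one) (le_one a)).symm
  · rintro rfl
    exact fun b => le_one b

theorem isZ_iff (a : El V) : isZ (le l1 l2) a ↔ a = z := by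
  constructor
  · exact fun h => le_anti h1 h2 (h z) (z_le a)
  · rintro rfl
    exact fun b => z_le b

theorem prd_un {a b c : El V} (h : prd (le l1 l2) a b) (h' : prd (le l1 l2) a c) : b = c := by
  rcases le_total h1 h2 b c with h3 | h3
  · rcases h.2.2 c h3 h'.1 with h4 | h4
    · exact h4.symm
    · exact absurd h4 h'.2.1
  · rcases h'.2.2 b h3 h.1 with h4 | h4
    · exact h4
    · exact absurd h4 h.2.1

theorem prd_one (a : El V) : prd (le l1 l2) one a ↔ a = top := by
  have h : prd (le l1 l2) one (top : El V) := by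
    refine ⟨le_one _, by simp, fun c h3 h4 => ?_⟩
    by_cases hc : c = one
    · exact Or.inr hc
    · exact Or.inl (le_anti h1 h2 (le_top hc) h3)
  exact ⟨fun h' => prd_un h1 h2 h' h, fun h' => h' ▸ h⟩

theorem prd_A (u : V) (a : El V) : prd (le l1 l2) (A u true) a ↔ a = A u false := by
  have h : prd (le l1 l2) (A u true) (A u false) := by
    refine ⟨Or.inr ⟨rfl, Or.inr ⟨rfl, fun h => rfl⟩⟩, by simp, fun c h3 h4 => ?_⟩
    have e1 := le_rk h3
    have e2 := le_rk h4
    cases c with
    | A v j =>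
      rcases h3 with h3 | ⟨-, h3 | ⟨rfl, h3⟩⟩
      · exact absurd h3 (lt_irrefl _)
      · rcases h4 with h4 | ⟨-, h4 | ⟨rfl, h4⟩⟩
        · exact absurd h4 (lt_irrefl _)
        · exact absurd (h1.trans _ _ _ h3 h4) (h1.irrefl _)
        · exact absurd h3 (h1.irrefl _)
      · cases j
        · exact Or.inl rfl
        · exact Or.inr rfl
    | one => simp [rk] at e2
    | top => simp [rk] at e2
    | B v j => simp [rk] at e1
    | mid => simp [rk] at e1
    | y v => simp [rk] at e1
    | z => simp [rk] at e1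
  exact ⟨fun h' => prd_un h1 h2 h' h, fun h' => h' ▸ h⟩

theorem prd_B (u : V) (a : El V) : prd (le l1 l2) (B u true) a ↔ a = B u false := by
  have h : prd (le l1 l2) (B u true) (B u false) := by
    refine ⟨Or.inr ⟨rfl, Or.inr ⟨rfl, fun h => rfl⟩⟩, by simp, fun c h3 h4 => ?_⟩
    have e1 := le_rk h3
    have e2 := le_rk h4
    cases c with
    | B v j =>
      rcases h3 with h3 | ⟨-, h3 | ⟨rfl, h3⟩⟩
      · exact absurd h3 (lt_irrefl _)
      · rcases h4 with h4 | ⟨-, h4 | ⟨rfl, h4⟩⟩
        · exact absurd h4 (lt_irrefl _)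
        · exact absurd (h1.trans _ _ _ h4 h3) (h1.irrefl _)
        · exact absurd h3 (h1.irrefl _)
      · cases j
        · exact Or.inl rfl
        · exact Or.inr rfl
    | one => simp [rk] at e2
    | top => simp [rk] at e2
    | A v j => simp [rk] at e2
    | mid => simp [rk] at e1
    | y v => simp [rk] at e1
    | z => simp [rk] at e1
  exact ⟨fun h' => prd_un h1 h2 h' h, fun h' => h' ▸ h⟩

theorem pq_self (u : V) : pq l1 u true u true = y u := by
  unfold pq
  rw [if_neg (h1.irrefl u), if_pos ⟨rfl, rfl, rfl⟩]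

omit h2 in
theorem pq_false (u v : V) (j : Bool) : pq l1 u false v j = mid ∨ pq l1 u false v j = z := by
  unfold pq
  by_cases h3 : l1 v u
  · exact Or.inl (if_pos h3)
  · right
    rw [if_neg h3, if_neg (by simp)]

omit h2 in
theorem pq_cases (u v : V) (j : Bool) : pq l1 u true v j = mid ∨ pq l1 u true v j = z ∨
    (v = u ∧ j = true) := by
  unfold pq
  by_cases h3 : l1 v u
  · exact Or.inl (if_pos h3)
  · right
    by_cases h4 : u = v ∧ true = true ∧ j = true
    · exact Or.inr ⟨h4.1.symm, h4.2.2⟩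
    · left
      rw [if_neg h3, if_neg h4]

theorem cmp_A (u : V) (b : El V) : cmp (le l1 l2) (gE l1) (A u true) b ↔ b = B u true := by
  unfold cmp
  rw [isOne_iff h1 h2]
  constructor
  · rintro ⟨hb, d, rfl, hd1, hd2⟩
    rw [isZ_iff h1 h2] at hd1
    have hd3 : mul l1 (A u true) b ≠ mid := fun h => hd2 h.symm
    cases b with
    | one => exact absurd rfl hb
    | top => exact absurd rfl hd3
    | A v j => exact absurd rfl hd3
    | B v j =>
      rcases pq_cases h1 u v j with h | h | ⟨rfl, rfl⟩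
      · exact absurd h hd3
      · exact absurd h hd1
      · rfl
    | mid => exact absurd rfl hd1
    | y v => exact absurd rfl hd1
    | z => exact absurd rfl hd1
  · rintro rfl
    refine ⟨by simp, y u, pq_self h1 h2 u, ?_, ?_⟩
    · rw [isZ_iff h1 h2]
      simp
    · show ¬ (mid : El V) = y u
      simp

theorem dm_iff (a : El V) : dm (le l1 l2) (gE l1) a ↔ ∃ u, a = A u true := by
  constructor
  · rintro ⟨ha, ⟨c, rfl, hc⟩, b, hb1, d, rfl, hd1, hd2⟩
    rw [isOne_iff h1 h2] at ha hb1
    rw [isZ_iff h1 h2] at hc hd1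
    cases a with
    | one => exact absurd rfl ha
    | top =>
      exfalso
      cases b with
      | one => exact hb1 rfl
      | top => exact hd2 rfl
      | A v j => exact hd2 rfl
      | B v j => exact hd2 rfl
      | mid => exact hd1 rfl
      | y v => exact hd1 rfl
      | z => exact hd1 rfl
    | A u i =>
      cases i
      · exfalso
        cases b with
        | one => exact hb1 rfl
        | top => exact hd2 rfl
        | A v j => exact hd2 rfl
        | B v j =>
          rcases pq_false h1 u v j with h | h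
          · exact hd2 h.symm
          · exact hd1 h
        | mid => exact hd1 rfl
        | y v => exact hd1 rfl
        | z => exact hd1 rfl
      · exact ⟨u, rfl⟩
    | B u i => exact absurd rfl hc
    | mid => exact absurd rfl hc
    | y u => exact absurd rfl hc
    | z => exact absurd rfl hc
  · rintro ⟨u, rfl⟩
    refine ⟨?_, ⟨mid, rfl, ?_⟩, B u true, (cmp_A h1 h2 u _).2 rfl⟩
    · rw [isOne_iff h1 h2]
      simp
    · rw [isZ_iff h1 h2]
      simp

theorem K_iff (t : Fin 9) (u : V) (a : El V) :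
    K (le l1 l2) (gE l1) t (A u true) a ↔ a = el t u := by
  match t with
  | 0 => exact isOne_iff h1 h2 a
  | 1 =>
    show (∃ t, isOne (le l1 l2) t ∧ prd (le l1 l2) t a) ↔ a = top
    constructor
    · rintro ⟨t, h3, h4⟩
      rw [isOne_iff h1 h2] at h3
      rw [h3, prd_one h1 h2] at h4
      exact h4
    · exact fun h3 => ⟨one, (isOne_iff h1 h2 _).2 rfl, (prd_one h1 h2 _).2 h3⟩
  | 2 => exact Iff.rfl
  | 3 => exact prd_A h1 h2 u a
  | 4 => exact cmp_A h1 h2 u a
  | 5 =>
    show (∃ b, cmp (le l1 l2) (gE l1) (A u true) b ∧ prd (le l1 l2) b a) ↔ a = B u false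
    constructor
    · rintro ⟨t, h3, h4⟩
      rw [cmp_A h1 h2] at h3
      rw [h3, prd_B h1 h2] at h4
      exact h4
    · exact fun h3 => ⟨_, (cmp_A h1 h2 u _).2 rfl, (prd_B h1 h2 _ _).2 h3⟩
  | 6 => exact eq_comm
  | 7 =>
    show (∃ b, cmp (le l1 l2) (gE l1) (A u true) b ∧ mul l1 (A u true) b = a) ↔ a = y u
    constructor
    · rintro ⟨t, h3, h4⟩
      rw [cmp_A h1 h2] at h3
      rw [h3] at h4
      rw [← h4]
      exact pq_self h1 h2 u
    · exact fun h3 => ⟨_, (cmp_A h1 h2 u _).2 rfl, (pq_self h1 h2 u).trans h3.symm⟩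
  | 8 => exact isZ_iff h1 h2 a

theorem r1_iff (u v : V) : r1 (le l1 l2) (A u true) (A v true) ↔ l1 u v := by
  constructor
  · rintro ⟨h3 | ⟨-, h3 | h3⟩, h4⟩
    · exact absurd h3 (lt_irrefl _)
    · exact h3
    · exact absurd (by rw [h3.1]) h4
  · intro h3
    refine ⟨Or.inr ⟨rfl, Or.inl h3⟩, fun h4 => ?_⟩
    have h5 : u = v := by
      injection h4
    rw [h5] at h3
    exact h1.irrefl _ h3

theorem r2_iff (u v : V) : r2 (le l1 l2) (gE l1) (A u true) (A v true) ↔ l2 u v := by
  unfold r2
  constructor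
  · rintro ⟨a, b, h3, h4, h5, h6⟩
    rw [K_iff h1 h2] at h3 h4
    subst h3
    subst h4
    rcases h5 with h5 | ⟨-, h5 | h5⟩
    · exact absurd h5 (lt_irrefl _)
    · exact absurd (by rw [h5]) h6
    · exact h5
  · intro h3
    refine ⟨y u, y v, (K_iff h1 h2 7 u _).2 rfl, (K_iff h1 h2 7 v _).2 rfl,
      Or.inr ⟨rfl, Or.inr h3⟩, fun h4 => ?_⟩
    have h5 : u = v := by
      injection h4
    rw [h5] at h3
    exact h2.irrefl _ h3

end El

end Pool.Agent.H2.TM
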