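import Mathlib.Data.Nat.Basic
import Mathlib.Tactic.Push
import Mathlib.Tactic.Tauto
import Mathlib.Tactic.ByContra
import Mathlib.Logic.Basic

set_option autoImplicit false

/-!
A totally ordered residuated monoid from a pair of linear orders.
-/

namespace Pool.Agent.H2.TM

/-- the elements of the monoid, in the decreasing order of the blocks -/
inductive El (V : Type) : Type
  | one : El V
  | top : El V
  | A : V → Bool → El V
  | B : V → Bool → El V
  | mid : El V
  | y : V → El V
  | z : El V

namespace El

variable {V : Type}

/-- the number of the block -/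
def rk : El V → ℕ
  | one => 6
  | top => 5
  | A _ _ => 4
  | B _ _ => 3
  | mid => 2
  | y _ => 1
  | z => 0

/-- the order in the blocks -/
def inn (l1 l2 : V → V → Prop) : El V → El V → Prop
  | A u i, A v j => l1 u v ∨ (u = v ∧ (i = true → j = true))
  | B u i, B v j => l1 v u ∨ (u = v ∧ (i = true → j = true))
  | y u, y v => u = v ∨ l2 u v
  | _, _ => True

/-- the order -/
def le (l1 l2 : V → V → Prop) (a b : El V) : Prop :=
  rk a < rk b ∨ (rk a = rk b ∧ inn l1 l2 a b)

open Classical in
/-- the products of the elements of the two main blocks -/
noncomputable def pq (l1 : V → V → Prop) (u : V) (i : Bool) (v : V) (j : Bool) : El V :=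
  if l1 v u then mid else if u = v ∧ i = true ∧ j = true then y u else z

/-- the multiplication -/
noncomputable def mul (l1 : V → V → Prop) : El V → El V → El V
  | one, b => b
  | a, one => a
  | A u i, B v j => pq l1 u i v j
  | B v j, A u i => pq l1 u i v j
  | top, top => mid
  | top, A _ _ => mid
  | top, B _ _ => mid
  | A _ _, top => mid
  | B _ _, top => mid
  | A _ _, A _ _ => mid
  | _, _ => z

/-- strict linear orders -/
structure Lin (l : V → V → Prop) : Prop where
  irrefl : ∀ u, ¬ l u u
  trans : ∀ u v w, l u v → l v w → l u w
  total : ∀ u v, u ≠ v → l u v ∨ l v u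

variable {l1 l2 : V → V → Prop} (h1 : Lin l1) (h2 : Lin l2)

theorem le_refl (a : El V) : le l1 l2 a a := by
  right
  refine ⟨rfl, ?_⟩
  cases a <;> simp [inn]

include h1 h2

theorem le_anti {a b : El V} (hab : le l1 l2 a b) (hba : le l1 l2 b a) : a = b := by
  have hr : rk a = rk b := by
    rcases hab with h | h <;> rcases hba with h' | h' <;> omega
  have i1 : inn l1 l2 a b := by
    rcases hab with h | h
    · omega
    · exact h.2
  have i2 : inn l1 l2 b a := by
    rcases hba with h | h
    · omega
    · exact h.2
  cases a <;> cases b <;> first | rfl | (simp [rk] at hr; done) | skip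
  · rename_i u i v j
    rcases i1 with i1 | ⟨rfl, i1⟩
    · rcases i2 with i2 | ⟨rfl, i2⟩
      · exact absurd (h1.trans _ _ _ i1 i2) (h1.irrefl _)
      · exact absurd i1 (h1.irrefl _)
    · rcases i2 with i2 | ⟨-, i2⟩
      · exact absurd i2 (h1.irrefl _)
      · cases i <;> cases j <;> simp_all
  · rename_i u i v j
    rcases i1 with i1 | ⟨rfl, i1⟩
    · rcases i2 with i2 | ⟨rfl, i2⟩
      · exact absurd (h1.trans _ _ _ i1 i2) (h1.irrefl _)
      · exact absurd i1 (h1.irrefl _)
    · rcases i2 with i2 | ⟨-, i2⟩
      · exact absurd i2 (h1.irrefl _)
      · cases i <;> cases j <;> simp_all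
  · rename_i u v
    rcases i1 with rfl | i1
    · rfl
    · rcases i2 with rfl | i2
      · rfl
      · exact absurd (h2.trans _ _ _ i1 i2) (h2.irrefl _)

theorem le_trans {a b c : El V} (hab : le l1 l2 a b) (hbc : le l1 l2 b c) : le l1 l2 a c := by
  rcases hab with h | ⟨h, i1⟩
  · rcases hbc with h' | h'
    · left
      omega
    · left
      omega
  · rcases hbc with h' | ⟨h', i2⟩
    · left
      omega
    · right
      refine ⟨h.trans h', ?_⟩
      cases a <;> cases b <;> first | (simp [rk] at h; done) | skip
      all_goals cases c <;> first | trivial | (simp [rk] at h'; done) | skip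
      · rename_i u i v j w k
        rcases i1 with i1 | ⟨rfl, i1⟩
        · rcases i2 with i2 | ⟨rfl, i2⟩
          · exact Or.inl (h1.trans _ _ _ i1 i2)
          · exact Or.inl i1
        · rcases i2 with i2 | ⟨rfl, i2⟩
          · exact Or.inl i2
          · exact Or.inr ⟨rfl, fun h => i2 (i1 h)⟩
      · rename_i u i v j w k
        rcases i1 with i1 | ⟨rfl, i1⟩
        · rcases i2 with i2 | ⟨rfl, i2⟩
          · exact Or.inl (h1.trans _ _ _ i2 i1)
          · exact Or.inl i1
        · rcases i2 with i2 | ⟨rfl, i2⟩
          · exact Or.inl i2
          · exact Or.inr ⟨rfl, fun h => i2 (i1 h)⟩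
      · rename_i u v w
        rcases i1 with rfl | i1
        · exact i2
        · rcases i2 with rfl | i2
          · exact Or.inr i1
          · exact Or.inr (h2.trans _ _ _ i1 i2)

theorem le_total (a b : El V) : le l1 l2 a b ∨ le l1 l2 b a := by
  rcases lt_trichotomy (rk a) (rk b) with h | h | h
  · exact Or.inl (Or.inl h)
  · have key : inn l1 l2 a b ∨ inn l1 l2 b a := by
      cases a <;> cases b <;> first | (simp [rk] at h; done) | exact Or.inl trivial | skip
      · rename_i u i v j
        by_cases hu : u = v
        · subst hu
          cases i <;> cases j <;> simp [inn]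
        · rcases h1.total u v hu with h3 | h3
          · exact Or.inl (Or.inl h3)
          · exact Or.inr (Or.inl h3)
      · rename_i u i v j
        by_cases hu : u = v
        · subst hu
          cases i <;> cases j <;> simp [inn]
        · rcases h1.total u v hu with h3 | h3
          · exact Or.inr (Or.inl h3)
          · exact Or.inl (Or.inl h3)
      · rename_i u v
        by_cases hu : u = v
        · exact Or.inl (Or.inl hu)
        · rcases h2.total u v hu with h3 | h3
          · exact Or.inl (Or.inr h3)
          · exact Or.inr (Or.inr h3)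
    rcases key with k | k
    · exact Or.inl (Or.inr ⟨h, k⟩)
    · exact Or.inr (Or.inr ⟨h.symm, k⟩)
  · exact Or.inr (Or.inl h)

omit h1 h2

theorem mul_comm' (a b : El V) : mul l1 a b = mul l1 b a := by
  cases a <;> cases b <;> rfl

theorem mul_one' (a : El V) : mul l1 a one = a := by
  cases a <;> rfl

theorem one_mul' (a : El V) : mul l1 one a = a := rfl

theorem le_one (a : El V) : le l1 l2 a one := by
  cases a <;> simp [le, rk, inn]

theorem z_le (a : El V) : le l1 l2 z a := by
  cases a <;> simp [le, rk, inn]

theorem pq_rk (u : V) (i : Bool) (v : V) (j : Bool) : rk (pq l1 u i v j) ≤ 2 := by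
  unfold pq
  split_ifs <;> simp [rk]

theorem rk_mul {a b : El V} (ha : a ≠ one) (hb : b ≠ one) : rk (mul l1 a b) ≤ 2 := by
  cases a <;> cases b <;> first | exact absurd rfl ha | exact absurd rfl hb | exact pq_rk _ _ _ _ |
    simp [mul, rk]

theorem mul_low {a b : El V} (ha : rk a ≤ 2) (hb : b ≠ one) : mul l1 a b = z := by
  cases a <;> cases b <;> first | exact absurd rfl hb | (simp [rk] at ha; done) | rfl

theorem mul_ne {a b : El V} (ha : a ≠ one) (hb : b ≠ one) : mul l1 a b ≠ one := by
  intro h
  have := rk_mul (l1 := l1) ha hb
  rw [h] at this
  exact absurd this (by simp [rk])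

theorem mul_three {a b c : El V} (ha : a ≠ one) (hb : b ≠ one) (hc : c ≠ one) :
    mul l1 (mul l1 a b) c = z := mul_low (rk_mul ha hb) hc

theorem mul_assoc' (a b c : El V) : mul l1 (mul l1 a b) c = mul l1 a (mul l1 b c) := by
  by_cases ha : a = one
  · rw [ha, one_mul', one_mul']
  · by_cases hb : b = one
    · rw [hb, mul_one', one_mul']
    · by_cases hc : c = one
      · rw [hc, mul_one', mul_one']
      · rw [mul_three ha hb hc, mul_comm' a, mul_low (rk_mul hb hc) ha]

include h1 in
theorem pq_mono_l {u u' : V} {i i' : Bool} (v : V) (j : Bool)
    (h : l1 u u' ∨ (u = u' ∧ (i = true → i' = true))) :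
    le l1 l2 (pq l1 u i v j) (pq l1 u' i' v j) := by
  unfold pq
  by_cases c1 : l1 v u'
  · rw [if_pos c1]
    split_ifs <;> simp [le, rk, inn]
  · rw [if_neg c1]
    have c2 : ¬ l1 v u := by
      intro c2
      rcases h with h | ⟨rfl, h⟩
      · exact c1 (h1.trans _ _ _ c2 h)
      · exact c1 c2
    rw [if_neg c2]
    by_cases c3 : u = v ∧ i = true ∧ j = true
    · obtain ⟨rfl, rfl, rfl⟩ := c3
      rcases h with h | ⟨rfl, h⟩
      · exact absurd h c1
      · rw [if_pos ⟨rfl, rfl, rfl⟩, if_pos ⟨rfl, h rfl, rfl⟩]
        exact le_refl _
    · rw [if_neg c3]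
      exact z_le _

include h1 in
theorem pq_mono_r (u : V) (i : Bool) {v v' : V} {j j' : Bool}
    (h : l1 v' v ∨ (v = v' ∧ (j = true → j' = true))) :
    le l1 l2 (pq l1 u i v j) (pq l1 u i v' j') := by
  unfold pq
  by_cases c1 : l1 v' u
  · rw [if_pos c1]
    split_ifs <;> simp [le, rk, inn]
  · rw [if_neg c1]
    have c2 : ¬ l1 v u := by
      intro c2
      rcases h with h | ⟨rfl, h⟩
      · exact c1 (h1.trans _ _ _ h c2)
      · exact c1 c2
    rw [if_neg c2]
    by_cases c3 : u = v ∧ i = true ∧ j = true
    · obtain ⟨rfl, rfl, rfl⟩ := c3
      rcases h with h | ⟨rfl, h⟩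
      · exact absurd h c1
      · rw [if_pos ⟨rfl, rfl, rfl⟩, if_pos ⟨rfl, rfl, h rfl⟩]
        exact le_refl _
    · rw [if_neg c3]
      exact z_le _

theorem le_rk {a b : El V} (h : le l1 l2 a b) : rk a ≤ rk b := by
  rcases h with h | h
  · omega
  · have := h.1
    omega

theorem le_of_two {a b : El V} (ha : rk a ≤ 2) (hb : 2 ≤ rk b) : le l1 l2 a b := by
  by_cases h : rk a < rk b
  · exact Or.inl h
  · right
    refine ⟨by omega, ?_⟩
    have ha' : rk a = 2 := by omega
    cases a with
    | mid => cases b <;> trivial
    | one => simp [rk] at ha'
    | top => simp [rk] at ha'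
    | A u i => simp [rk] at ha'
    | B u i => simp [rk] at ha'
    | y u => simp [rk] at ha'
    | z => simp [rk] at ha'

include h1 in
theorem mul_mono {a b : El V} (h : le l1 l2 a b) (c : El V) :
    le l1 l2 (mul l1 a c) (mul l1 b c) := by
  cases a <;> cases b <;> first | (simp [le, rk] at h; done) | skip
  all_goals cases c
  all_goals first
    | exact z_le _
    | exact le_refl _
    | exact h
    | (refine le_of_two ?_ ?_ <;> first | exact pq_rk _ _ _ _ | (simp [mul, rk]; done))
    | skip
  · rename_i u i v j w k
    rcases h with h | h
    · simp [rk] at h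
    · exact pq_mono_l h1 _ _ h.2
  · rename_i u i v j w k
    rcases h with h | h
    · simp [rk] at h
    · exact pq_mono_r h1 _ _ h.2

theorem le_top {c : El V} (hc : c ≠ one) : le l1 l2 c top := by
  cases c <;> first | exact absurd rfl hc | simp [le, rk, inn]

theorem not_le_rk {a b : El V} (h : rk b < rk a) : ¬ le l1 l2 a b := fun h' => by
  have := le_rk h'
  omega

include h1 in
theorem mul_le (a c : El V) : le l1 l2 (mul l1 a c) a := by
  rw [mul_comm']
  have := mul_mono h1 (le_one (l1 := l1) (l2 := l2) c) a
  exact this

include h1 h2 in
/-- the residuals -/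
theorem res (a b : El V) : ∃ r, ∀ c, le l1 l2 (mul l1 a c) b ↔ le l1 l2 c r := by
  by_cases hab : le l1 l2 a b
  · exact ⟨one, fun c => iff_of_true (le_trans h1 h2 (mul_le h1 a c) hab) (le_one c)⟩
  by_cases ha : a = one
  · exact ⟨b, fun c => by rw [ha, one_mul']⟩
  by_cases hb : 2 ≤ rk b ∨ rk a ≤ 2
  · refine ⟨top, fun c => ?_⟩
    by_cases hc : c = one
    · rw [hc, mul_one']
      exact iff_of_false hab (not_le_rk (by simp [rk]))
    · refine iff_of_true ?_ (le_top hc)
      rcases hb with hb | hb
      · exact le_of_two (rk_mul ha hc) hb
      · rw [mul_low hb hc]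
        exact z_le _
  · have hb1 : rk b ≤ 1 := by omega
    have ha2 : 3 ≤ rk a := by omega
    clear hb
    have hmid : ¬ le l1 l2 mid b := not_le_rk (show rk b < 2 by omega)
    cases a with
    | one => exact absurd rfl ha
    | mid => simp [rk] at ha2
    | y u => simp [rk] at ha2
    | z => simp [rk] at ha2
    | top =>
      refine ⟨mid, fun c => ?_⟩
      cases c
      · exact iff_of_false hab (not_le_rk (by simp [rk]))
      · exact iff_of_false hmid (not_le_rk (by simp [rk]))
      · exact iff_of_false hmid (not_le_rk (by simp [rk]))
      · exact iff_of_false hmid (not_le_rk (by simp [rk]))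
      · exact iff_of_true (z_le _) (le_refl _)
      · exact iff_of_true (z_le _) (Or.inl (by simp [rk]))
      · exact iff_of_true (z_le _) (z_le _)
    | A u i =>
      classical
      refine ⟨B u (decide (i = false ∨ le l1 l2 (y u) b)), fun c => ?_⟩
      cases c with
      | one => exact iff_of_false hab (not_le_rk (by simp [rk]))
      | top => exact iff_of_false hmid (not_le_rk (by simp [rk]))
      | A v j => exact iff_of_false hmid (not_le_rk (by simp [rk]))
      | mid => exact iff_of_true (z_le _) (Or.inl (by simp [rk]))
      | y v => exact iff_of_true (z_le _) (Or.inl (by simp [rk]))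
      | z => exact iff_of_true (z_le _) (z_le _)
      | B v j =>
        show le l1 l2 (pq l1 u i v j) b ↔ _
        by_cases c1 : l1 v u
        · have e : pq l1 u i v j = mid := if_pos c1
          rw [e]
          refine iff_of_false hmid ?_
          rintro (h | ⟨-, h | ⟨h, -⟩⟩)
          · simp [rk] at h
          · exact h1.irrefl _ (h1.trans _ _ _ c1 h)
          · rw [h] at c1
            exact h1.irrefl _ c1
        · by_cases c2 : u = v
          · subst c2
            cases i
            · have e : pq l1 u false u j = z := by
                unfold pq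
                rw [if_neg c1, if_neg (by simp)]
              rw [e]
              exact iff_of_true (z_le _) (Or.inr ⟨rfl, Or.inr ⟨rfl, fun _ => by simp⟩⟩)
            · cases j
              · have e : pq l1 u true u false = z := by
                  unfold pq
                  rw [if_neg c1, if_neg (by simp)]
                rw [e]
                exact iff_of_true (z_le _) (Or.inr ⟨rfl, Or.inr ⟨rfl, fun h => by simp at h⟩⟩)
              · have e : pq l1 u true u true = y u := by
                  unfold pq
                  rw [if_neg c1, if_pos (by simp)]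
                rw [e]
                constructor
                · intro h
                  exact Or.inr ⟨rfl, Or.inr ⟨rfl, fun _ => by simp [h]⟩⟩
                · rintro (h | ⟨-, h | ⟨-, h⟩⟩)
                  · simp [rk] at h
                  · exact absurd h (h1.irrefl _)
                  · have := h rfl
                    simpa using this
          · have c3 : l1 u v := (h1.total u v c2).resolve_right c1
            have e : pq l1 u i v j = z := by
              unfold pq
              rw [if_neg c1, if_neg (fun h => c2 h.1)]
            rw [e]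
            exact iff_of_true (z_le _) (Or.inr ⟨rfl, Or.inl c3⟩)
    | B u i =>
      classical
      refine ⟨A u (decide (i = false ∨ le l1 l2 (y u) b)), fun c => ?_⟩
      cases c with
      | one => exact iff_of_false hab (not_le_rk (by simp [rk]))
      | top => exact iff_of_false hmid (not_le_rk (by simp [rk]))
      | B v j => exact iff_of_true (z_le _) (Or.inl (by simp [rk]))
      | mid => exact iff_of_true (z_le _) (Or.inl (by simp [rk]))
      | y v => exact iff_of_true (z_le _) (Or.inl (by simp [rk]))
      | z => exact iff_of_true (z_le _) (z_le _)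
      | A v j =>
        show le l1 l2 (pq l1 v j u i) b ↔ _
        by_cases c1 : l1 u v
        · have e : pq l1 v j u i = mid := if_pos c1
          rw [e]
          refine iff_of_false hmid ?_
          rintro (h | ⟨-, h | ⟨h, -⟩⟩)
          · simp [rk] at h
          · exact h1.irrefl _ (h1.trans _ _ _ c1 h)
          · rw [h] at c1
            exact h1.irrefl _ c1
        · by_cases c2 : v = u
          · subst c2
            cases i
            · have e : pq l1 v j v false = z := by
                unfold pq
                rw [if_neg c1, if_neg (by simp)]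
              rw [e]
              exact iff_of_true (z_le _) (Or.inr ⟨rfl, Or.inr ⟨rfl, fun _ => by simp⟩⟩)
            · cases j
              · have e : pq l1 v false v true = z := by
                  unfold pq
                  rw [if_neg c1, if_neg (by simp)]
                rw [e]
                exact iff_of_true (z_le _) (Or.inr ⟨rfl, Or.inr ⟨rfl, fun h => by simp at h⟩⟩)
              · have e : pq l1 v true v true = y v := by
                  unfold pq
                  rw [if_neg c1, if_pos (by simp)]
                rw [e]
                constructor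
                · intro h
                  exact Or.inr ⟨rfl, Or.inr ⟨rfl, fun _ => by simp [h]⟩⟩
                · rintro (h | ⟨-, h | ⟨-, h⟩⟩)
                  · simp [rk] at h
                  · exact absurd h (h1.irrefl _)
                  · have := h rfl
                    simpa using this
          · have c3 : l1 v u := (h1.total v u c2).resolve_right c1
            have e : pq l1 v j u i = z := by
              unfold pq
              rw [if_neg c1, if_neg (fun h => c2 h.1)]
            rw [e]
            exact iff_of_true (z_le _) (Or.inr ⟨rfl, Or.inl c3⟩)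

end El

end Pool.Agent.H2.TM
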