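import Pool.Agent.H2.TM.Unb

set_option autoImplicit false

/-!
The dichotomy for the theories of naturally totally ordered semigroups.
-/

namespace Pool.Agent.H2.TM

open FirstOrder FirstOrder.Language
open Pool.Agent.W889.FO
open Pool.Agent.W889.FO.St0 (RF LF W D gr fun_iff)
open Pool.Agent.H533R2.VO (RS RIso Dich)
open Pool.Agent.R617.VT (ar_e ar_not dc cd Nrm)
open Pool.Agent.K7.H41.NC (fo_of)
open Pool.Agent.H2.VC (pr)

/-- The dichotomy. -/
theorem vaught_no {L : FirstOrder.Language.{0, 0}} (hL : Countable L.Symbols) (T : L.Theory)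
    (R : L.Relations 2) (F : L.Functions 2)
    (hR : ∀ (n : ℕ) (Q : L.Relations n), n = 1 ∨ (⟨n, Q⟩ : Σ n, L.Relations n) = ⟨2, R⟩)
    (hF : ∀ (n : ℕ) (G : L.Functions n), n = 0 ∨ (⟨n, G⟩ : Σ n, L.Functions n) = ⟨2, F⟩)
    (hT : ∀ S : L.Structure ℕ, @Theory.Model L ℕ S T → NO (fun u v => rl S R v u) (mu S F)) :
    VaughtF L T := by
  by_cases hN : ∃ N, ∀ S : L.Structure ℕ, @Theory.Model L ℕ S T → ∀ w,
      pw (mu S F) w N = pw (mu S F) w (N + 1)
  · obtain ⟨N, hN⟩ := hN
    refine fo_of hL T fun e he => ?_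
    have hl : R617.VT.ar e (e ⟨2, RF.rel R⟩) = 2 := ar_e he ⟨2, (RF.rel R : (LF L).Relations 2)⟩
    have hm : R617.VT.ar e (e ⟨3, RF.fn F⟩) = 3 := ar_e he ⟨3, (RF.fn F : (LF L).Relations 3)⟩
    refine ⟨Bd (e ⟨2, RF.rel R⟩) (e ⟨3, RF.fn F⟩) N, vcu_bd hl hm ?_ N, ?_⟩
    · intro i h1 h2
      by_cases hi : ∃ p, e p = i
      · obtain ⟨⟨n, P⟩, rfl⟩ := hi
        have hn := ar_e he ⟨n, P⟩
        rw [hn]
        cases P with
        | rel Q =>
          rcases hR n Q with rfl | h3
          · exact le_rfl
          · exfalso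
            apply h1
            cases h3
            rfl
        | @fn n G =>
          rcases hF n G with rfl | h3
          · exact le_rfl
          · exfalso
            apply h2
            cases h3
            rfl
      · rw [ar_not hi]
        omega
    · intro x hx hW hM
      have hno := hT _ hM
      refine ⟨⟨mu (D (dc he x)) F, ?_, ?_, hN _ hM⟩, ?_⟩
      · have e1 : Lx x (e ⟨2, RF.rel R⟩) = fun u v => rl (D (dc he x)) R v u := by
          funext u v
          refine propext ?_
          show x _ (pr v u) = true ↔ x (e ⟨2, RF.rel R⟩) (fun k => ![v, u] (Fin.cast hl k)) = true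
          have e2 : (pr v u : Fin (R617.VT.ar e (e ⟨2, RF.rel R⟩)) → ℕ) =
              fun k => ![v, u] (Fin.cast hl k) := by
            funext k
            have h2 : ∀ (m : ℕ) (hm : m = 2) (k : Fin m), (pr v u : Fin m → ℕ) k =
                ![v, u] (Fin.cast hm k) := by
              rintro m rfl k
              fin_cases k <;> rfl
            exact h2 _ hl k
          rw [e2]
        rw [e1]
        exact hno
      · intro u v w
        show _ ↔ @Structure.funMap L ℕ (D (dc he x)) 2 F ![u, v] = w
        rw [fun_iff hW]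
        show x _ (tr u v w) = true ↔ x (e ⟨3, RF.fn F⟩) (fun k =>
          (Fin.snoc (α := fun _ => ℕ) ![u, v] w : Fin 3 → ℕ) (Fin.cast hm k)) = true
        have e2 : (tr u v w : Fin (R617.VT.ar e (e ⟨3, RF.fn F⟩)) → ℕ) =
            fun k => (Fin.snoc (α := fun _ => ℕ) ![u, v] w : Fin 3 → ℕ) (Fin.cast hm k) := by
          funext k
          have h2 : ∀ (m : ℕ) (hm : m = 3) (k : Fin m), (tr u v w : Fin m → ℕ) k =
              (Fin.snoc (α := fun _ => ℕ) ![u, v] w : Fin 3 → ℕ) (Fin.cast hm k) := by
            rintro m rfl k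
            fin_cases k <;> rfl
          exact h2 _ hm k
        rw [e2]
      · intro i hi v
        by_cases hi' : ∃ p, e p = i
        · obtain ⟨⟨n, P⟩, rfl⟩ := hi'
          have hn := ar_e he ⟨n, P⟩
          rw [hn] at hi
          cases P with
          | rel Q =>
            rcases hR n Q with h3 | h3
            · exact absurd (show n = 0 from hi) (by omega)
            · have h4 : n = 2 := congrArg Sigma.fst h3
              exact absurd (show n = 0 from hi) (by omega)
          | @fn n G => exact absurd hi (Nat.succ_ne_zero n)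
        · exact hx i hi' v
  · push Not at hN
    refine vaught_unb hL T R F hT fun N => ?_
    obtain ⟨S, h1, w, h2⟩ := hN N
    exact ⟨S, h1, w, h2⟩

end Pool.Agent.H2.TM
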