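import Pool.Agent.H2.TM.Mtl
import Mathlib.Tactic.FinCases
import Mathlib.Tactic.NormNum
import Mathlib.Data.Fintype.Basic
import Mathlib.Data.Fin.Basic

set_option autoImplicit false

/-!
The elements of the monoid by tags, and their first-order descriptions.
-/

namespace Pool.Agent.H2.TM

namespace El

variable {V : Type}

/-- the element with the tag `t` -/
def el (t : Fin 9) (u : V) : El V :=
  match t with
  | 0 => one
  | 1 => top
  | 2 => A u true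
  | 3 => A u false
  | 4 => B u true
  | 5 => B u false
  | 6 => mid
  | 7 => y u
  | 8 => z

/-- constant tags -/
def con (t : Fin 9) : Prop := t = 0 ∨ t = 1 ∨ t = 6 ∨ t = 8

/-- the ranks of the tags -/
def rt (t : Fin 9) : ℕ :=
  match t with
  | 0 => 6
  | 1 => 5
  | 2 => 4
  | 3 => 4
  | 4 => 3
  | 5 => 3
  | 6 => 2
  | 7 => 1
  | 8 => 0

theorem rk_el (t : Fin 9) (u : V) : rk (el t u) = rt t := by
  fin_cases t <;> rfl

theorem el_inj (t s : Fin 9) (u v : V) : el t u = el s v ↔ t = s ∧ (con t ∨ u = v) := by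
  fin_cases t <;> fin_cases s <;> simp [el, con]

theorem el_surj [Nonempty V] (a : El V) : ∃ t u, el t u = a := by
  obtain ⟨v⟩ := ‹Nonempty V›
  cases a with
  | one => exact ⟨0, v, rfl⟩
  | top => exact ⟨1, v, rfl⟩
  | A u i =>
    cases i
    · exact ⟨3, u, rfl⟩
    · exact ⟨2, u, rfl⟩
  | B u i =>
    cases i
    · exact ⟨5, u, rfl⟩
    · exact ⟨4, u, rfl⟩
  | mid => exact ⟨6, v, rfl⟩
  | y u => exact ⟨7, u, rfl⟩
  | z => exact ⟨8, v, rfl⟩

/-- the order, by tags -/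
def leF (l1 l2 : V → V → Prop) (t s : Fin 9) (u v : V) : Prop :=
  rt t < rt s ∨ (rt t = rt s ∧ ((rt t = 4 ∧ (l1 u v ∨ (u = v ∧ (t = 2 → s = 2)))) ∨
    (rt t = 3 ∧ (l1 v u ∨ (u = v ∧ (t = 4 → s = 4)))) ∨ (rt t = 1 ∧ (u = v ∨ l2 u v)) ∨
      (rt t ≠ 4 ∧ rt t ≠ 3 ∧ rt t ≠ 1)))

theorem le_iff (l1 l2 : V → V → Prop) (t s : Fin 9) (u v : V) :
    le l1 l2 (el t u) (el s v) ↔ leF l1 l2 t s u v := by
  unfold le leF
  rw [rk_el, rk_el]
  fin_cases t <;> fin_cases s <;> simp [el, inn, rt]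

/-- the products of the elements of the main blocks, by tags -/
def pqF (l1 : V → V → Prop) (u : V) (i : Prop) (v : V) (j : Prop) (r : Fin 9) (w : V) : Prop :=
  (l1 v u ∧ r = 6) ∨ (¬ l1 v u ∧ ((u = v ∧ i ∧ j ∧ r = 7 ∧ w = u) ∨ (¬ (u = v ∧ i ∧ j) ∧ r = 8)))

theorem pq_iff (l1 : V → V → Prop) (u : V) (i : Bool) (v : V) (j : Bool) (r : Fin 9) (w : V) :
    pq l1 u i v j = el r w ↔ pqF l1 u (i = true) v (j = true) r w := by
  unfold pqF pq
  by_cases h1 : l1 v u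
  · rw [if_pos h1]
    have e : (mid : El V) = el 6 w := rfl
    rw [e, el_inj]
    constructor
    · rintro ⟨rfl, -⟩
      exact Or.inl ⟨h1, rfl⟩
    · rintro (⟨-, rfl⟩ | ⟨h, -⟩)
      · exact ⟨rfl, Or.inr rfl⟩
      · exact absurd h1 h
  · rw [if_neg h1]
    by_cases h2 : u = v ∧ i = true ∧ j = true
    · rw [if_pos h2]
      have e : (y u : El V) = el 7 u := rfl
      rw [e, el_inj]
      constructor
      · rintro ⟨rfl, h3⟩
        refine Or.inr ⟨h1, Or.inl ⟨h2.1, h2.2.1, h2.2.2, rfl, ?_⟩⟩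
        rcases h3 with h3 | h3
        · simp [con] at h3
        · exact h3.symm
      · rintro (⟨h, -⟩ | ⟨-, ⟨-, -, -, rfl, rfl⟩ | ⟨h, -⟩⟩)
        · exact absurd h h1
        · exact ⟨rfl, Or.inr rfl⟩
        · exact absurd h2 h
    · rw [if_neg h2]
      have e : (z : El V) = el 8 w := rfl
      rw [e, el_inj]
      constructor
      · rintro ⟨rfl, -⟩
        exact Or.inr ⟨h1, Or.inr ⟨h2, rfl⟩⟩
      · rintro (⟨h, -⟩ | ⟨-, h | ⟨-, rfl⟩⟩)
        · exact absurd h h1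
        · exact absurd ⟨h.1, h.2.1, h.2.2.1⟩ h2
        · exact ⟨rfl, Or.inr rfl⟩

/-- the multiplication, by tags -/
def mulF (l1 : V → V → Prop) (t s r : Fin 9) (u v w : V) : Prop :=
  (t = 0 ∧ s = r ∧ (con s ∨ v = w)) ∨ (t ≠ 0 ∧ s = 0 ∧ t = r ∧ (con t ∨ u = w)) ∨
  (t ≠ 0 ∧ s ≠ 0 ∧ (
    ((((t = 1 ∧ 3 ≤ rt s) ∨ (s = 1 ∧ 3 ≤ rt t)) ∨ (rt t = 4 ∧ rt s = 4)) ∧ r = 6) ∨
    ((rt t = 4 ∧ rt s = 3) ∧ pqF l1 u (t = 2) v (s = 4) r w) ∨
    ((rt s = 4 ∧ rt t = 3) ∧ pqF l1 v (s = 2) u (t = 4) r w) ∨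
    ((rt t ≤ 2 ∨ rt s ≤ 2 ∨ (rt t = 3 ∧ rt s = 3)) ∧ r = 8)))

theorem mul_iff (l1 : V → V → Prop) (t s r : Fin 9) (u v w : V) :
    mul l1 (el t u) (el s v) = el r w ↔ mulF l1 t s r u v w := by
  have hmid : ∀ r : Fin 9, (mid : El V) = el r w ↔ r = 6 := by
    intro r
    have e : (mid : El V) = el 6 w := rfl
    rw [e, el_inj]
    exact ⟨fun h => h.1.symm, fun h => ⟨h.symm, Or.inr rfl⟩⟩
  have hz : ∀ r : Fin 9, (z : El V) = el r w ↔ r = 8 := by
    intro r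
    have e : (z : El V) = el 8 w := rfl
    rw [e, el_inj]
    exact ⟨fun h => h.1.symm, fun h => ⟨h.symm, Or.inr rfl⟩⟩
  by_cases ht : t = 0
  · subst ht
    have e : mul l1 (el 0 u) (el s v) = el s v := rfl
    rw [e, el_inj]
    constructor
    · exact fun h => Or.inl ⟨rfl, h⟩
    · rintro (h | h | h)
      · exact h.2
      · exact absurd rfl h.1
      · exact absurd rfl h.1
  by_cases hs : s = 0
  · subst hs
    have e : mul l1 (el t u) (el 0 v) = el t u := mul_one' _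
    rw [e, el_inj]
    constructor
    · exact fun h => Or.inr (Or.inl ⟨ht, rfl, h⟩)
    · rintro (h | h | h)
      · exact absurd h.1 ht
      · exact h.2.2
      · exact absurd rfl h.2.1
  have key : mulF l1 t s r u v w ↔
    (((((t = 1 ∧ 3 ≤ rt s) ∨ (s = 1 ∧ 3 ≤ rt t)) ∨ (rt t = 4 ∧ rt s = 4)) ∧ r = 6) ∨
    ((rt t = 4 ∧ rt s = 3) ∧ pqF l1 u (t = 2) v (s = 4) r w) ∨
    ((rt s = 4 ∧ rt t = 3) ∧ pqF l1 v (s = 2) u (t = 4) r w) ∨
    ((rt t ≤ 2 ∨ rt s ≤ 2 ∨ (rt t = 3 ∧ rt s = 3)) ∧ r = 8)) := by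
    unfold mulF
    simp only [ht, hs, false_and, ne_eq, not_false_eq_true, true_and, false_or]
  rw [key]
  clear key
  fin_cases t <;> fin_cases s <;>
    first
      | exact absurd rfl ht
      | exact absurd rfl hs
      | (simp [rt]; exact hmid r)
      | (simp [rt]; exact hz r)
      | (simp [rt]; exact (pq_iff l1 u _ v _ r w).trans (by simp))
      | (simp [rt]; exact (pq_iff l1 v _ u _ r w).trans (by simp))

end El

end Pool.Agent.H2.TM
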