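import Pool.Agent.H2.TM.Bdd
import Pool.Graph.R_seed8.H579R3.SB
import Pool.Graph.R_seed8.H566W.Ana

set_option autoImplicit false

/-!
Uncountably many types give perfectly many structures.
-/

namespace Pool.Agent.H2.TM

open MeasureTheory Set
open Pool.Agent.H533R2.VO (RS RIso Dich)
open Pool.Agent.W889.VC (BP)

theorem m_iff_bp {X : Type} [MeasurableSpace X] {p : X → Prop} (h : BP p) : Measurable p :=
  measurableSet_setOfPred.1 h

/-- isomorphism is analytic on measurable families -/
theorem analytic_riso {a : ℕ → ℕ} (u : (ℕ → Bool) → RS a) (hu : Measurable u) :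
    AnalyticSet {p : (ℕ → Bool) × (ℕ → Bool) | RIso (u p.1) (u p.2)} := by
  set Ω : Type := ((ℕ → Bool) × (ℕ → Bool)) × ((ℕ → ℕ) × (ℕ → ℕ)) with hΩ
  have m1 : ∀ a b : ℕ, Measurable fun q : Ω => q.2.1 a = b := fun a b => by
    have h : Measurable fun q : Ω => q.2.1 a :=
      (measurable_pi_apply a).comp (measurable_fst.comp measurable_snd)
    exact measurableSet_setOfPred.1 (h (measurableSet_singleton b))
  have m2 : ∀ a b : ℕ, Measurable fun q : Ω => q.2.2 a = b := fun a b => by
    have h : Measurable fun q : Ω => q.2.2 a :=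
      (measurable_pi_apply a).comp (measurable_snd.comp measurable_snd)
    exact measurableSet_setOfPred.1 (h (measurableSet_singleton b))
  have m3 : ∀ (f g : Ω → Bool), Measurable f → Measurable g →
      Measurable fun q : Ω => f q = g q := fun f g hf hg =>
    measurableSet_setOfPred.1 (measurableSet_eq_fun hf hg)
  have mu : Measurable fun q : Ω => u q.1.1 := hu.comp (measurable_fst.comp measurable_fst)
  have mv : Measurable fun q : Ω => u q.1.2 := hu.comp (measurable_snd.comp measurable_fst)
  have mc : ∀ (i : ℕ) (v : Fin (a i) → ℕ), Measurable fun x : RS a => x i v := fun i v =>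
    (measurable_pi_apply v).comp (measurable_pi_apply i)
  let P : Ω → Prop := fun q => (∀ a b, q.2.1 a = b → q.2.2 b = a) ∧
    (∀ a b, q.2.2 a = b → q.2.1 b = a) ∧
    ∀ (i : ℕ) (v w : Fin (a i) → ℕ), (∀ j, q.2.1 (v j) = w j) → u q.1.2 i w = u q.1.1 i v
  have hP : Measurable P := by
    refine (Measurable.forall fun a => Measurable.forall fun b => (m1 a b).imp (m2 b a)).and ?_
    refine (Measurable.forall fun a => Measurable.forall fun b => (m2 a b).imp (m1 b a)).and ?_
    refine Measurable.forall fun i => Measurable.forall fun v => Measurable.forall fun w =>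
      (Measurable.forall fun j => m1 _ _).imp (m3 _ _ ?_ ?_)
    · exact (mc i w).comp mv
    · exact (mc i v).comp mu
  have h2 : {p : (ℕ → Bool) × (ℕ → Bool) | RIso (u p.1) (u p.2)} =
      Prod.fst '' {q : Ω | P q} := by
    ext p
    constructor
    · rintro ⟨σ, hσ⟩
      refine ⟨(p, (σ, σ.symm)), ⟨?_, ?_, ?_⟩, rfl⟩
      · rintro a b rfl
        exact σ.symm_apply_apply a
      · rintro a b rfl
        exact σ.apply_symm_apply a
      · intro i v w hvw
        have : w = ⇑σ ∘ v := funext fun j => (hvw j).symm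
        rw [this]
        exact hσ i v
    · rintro ⟨q, ⟨h1, h2, h3⟩, rfl⟩
      refine ⟨⟨q.2.1, q.2.2, fun a => h1 a _ rfl, fun a => h2 a _ rfl⟩, fun i v => ?_⟩
      exact h3 i v _ fun j => rfl
  rw [h2]
  exact (measurableSet_setOfPred.2 hP).analyticSet_image measurable_fst

/-- the pairs realizing a type -/
def Rz {a : ℕ → ℕ} (P : ℕ → RS a → ℕ → ℕ → Prop) (x : RS a) (u v : ℕ) (t : ℕ → Bool) : Prop :=
  ∀ n, t n = true ↔ P n x u v

/-- Uncountably many types give perfectly many structures. -/
theorem dich_types {a : ℕ → ℕ} (B : Set (RS a)) (hB : MeasurableSet B)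
    (P : ℕ → RS a → ℕ → ℕ → Prop) (hP : ∀ n u v, BP fun x => P n x u v)
    (hi : ∀ (σ : Equiv.Perm ℕ) (x y : RS a), (∀ i v, y i (⇑σ ∘ v) = x i v) →
      ∀ n u v, P n x u v ↔ P n y (σ u) (σ v))
    (hu : ¬ {t : ℕ → Bool | ∃ x ∈ B, ∃ u v, Rz P x u v t}.Countable) :
    ∃ g : (ℕ → Bool) → RS a, Continuous g ∧ (∀ c, g c ∈ B) ∧
      ∀ c d, RIso (g c) (g d) → c = d := by
  classical
  let X : Type := RS a × ℕ × ℕ
  have hX : PolishSpace (RS a × ℕ × ℕ) := {}
  let E : X → X → Prop := fun p q => ∀ n, P n p.1 p.2.1 p.2.2 ↔ P n q.1 q.2.1 q.2.2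
  have hE : Equivalence E := ⟨fun p n => Iff.rfl, fun h n => (h n).symm,
    fun h1 h2 n => (h1 n).trans (h2 n)⟩
  have hfst : ∀ n, Measurable fun p : X => P n p.1 p.2.1 p.2.2 := by
    intro n
    have h1 : (fun p : X => P n p.1 p.2.1 p.2.2) = fun p => ∃ u v, p.2 = (u, v) ∧ P n p.1 u v := by
      funext p
      refine propext ⟨fun h => ⟨_, _, rfl, h⟩, ?_⟩
      rintro ⟨u, v, h1, h2⟩
      rw [h1]
      exact h2
    rw [h1]
    refine Measurable.exists fun u => Measurable.exists fun v => ?_
    refine Measurable.and ?_ ?_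
    · have h3 : Measurable fun p : X => p.2 := measurable_snd
      exact measurableSet_setOfPred.1 (h3 (measurableSet_singleton (u, v)))
    · exact (m_iff_bp (hP n u v)).comp measurable_fst
  have hm : MeasurableSet {q : X × X | E q.1 q.2} := by
    refine measurableSet_setOfPred.2 (Measurable.forall fun n => ?_)
    exact ((hfst n).comp measurable_fst).iff ((hfst n).comp measurable_snd)
  have hA : AnalyticSet {p : X | p.1 ∈ B} := (measurable_fst hB).analyticSet
  rcases Pool.Agent.H579R3.SV.silver hE hm hA with ⟨S, hSA, hSc, hS⟩ | ⟨h, hc, hA', hE'⟩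
  · exfalso
    apply hu
    have h1 : {t : ℕ → Bool | ∃ x ∈ B, ∃ u v, Rz P x u v t} ⊆
        (fun p : X => fun n => decide (P n p.1 p.2.1 p.2.2)) '' S := by
      rintro t ⟨x, hx, u, v, ht⟩
      obtain ⟨y, hy, hxy⟩ := hS (x, u, v) hx
      refine ⟨y, hy, ?_⟩
      funext n
      show decide (P n y.1 y.2.1 y.2.2) = t n
      rw [Bool.eq_iff_iff, decide_eq_true_iff, ht n]
      exact (hxy n).symm
    exact (hSc.image _).mono h1
  · let u : (ℕ → Bool) → RS a := fun c => (h c).1
    have huc : Continuous u := continuous_fst.comp hc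
    have hR := analytic_riso u huc.measurable
    obtain ⟨k, hk, hk'⟩ := Pool.Agent.H566W.perfect_independent
      (fun c d => RIso (u c) (u d)) hR (fun c => by
        have h2 : {d | RIso (u c) (u d)} ⊆ ⋃ q : ℕ × ℕ, {d | E (u c, q.1, q.2) (h d)} := by
          rintro d ⟨σ, hσ⟩
          rw [Set.mem_iUnion]
          refine ⟨(σ.symm (h d).2.1, σ.symm (h d).2.2), fun n => ?_⟩
          have h3 := hi σ (u c) (u d) hσ n (σ.symm (h d).2.1) (σ.symm (h d).2.2)
          rw [σ.apply_symm_apply, σ.apply_symm_apply] at h3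
          exact h3
        refine Set.Countable.mono h2 (Set.countable_iUnion fun q => ?_)
        refine Set.Subsingleton.countable fun d hd d' hd' => ?_
        by_contra hne
        exact hE' d d' hne (hE.trans (hE.symm hd) hd'))
    refine ⟨fun c => u (k c), huc.comp hk, fun c => hA' _, fun c d hcd => ?_⟩
    by_contra hne
    exact hk' c d hne hcd

end Pool.Agent.H2.TM
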