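import Pool.Agent.H2.TM.Cmp

set_option autoImplicit false

/-!
Naturally totally ordered semigroups of unbounded exponent have uncountably many types of pairs.
-/

namespace Pool.Agent.H2.TM

open FirstOrder FirstOrder.Language
open Pool.Agent.W889.FO

section pow

variable {α : Type} {le : α → α → Prop} {mul : α → α → α} (h : NO le mul)

theorem stab {w : α} {i : ℕ} (hi : pw mul w i = pw mul w (i + 1)) {n : ℕ} (hn : i ≤ n) :
    pw mul w n = pw mul w (n + 1) := by
  induction n, hn using Nat.le_induction with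
  | base => exact hi
  | succ n _ ih =>
    show mul (pw mul w n) w = mul (pw mul w (n + 1)) w
    rw [← ih]

include h

theorem NO.pw_iff {w : α} {N : ℕ} (hw : pw mul w N ≠ pw mul w (N + 1)) {i j : ℕ}
    (hi : i ≤ N) : le (pw mul w j) (pw mul w i) ↔ j ≤ i := by
  constructor
  · intro h1
    by_contra hij
    have hij : i < j := Nat.lt_of_not_le hij
    have h2 : pw mul w i = pw mul w (i + 1) :=
      h.anti _ _ (h.pw_le (Nat.le_succ i)) (h.trans _ _ _ (h.pw_le hij) h1)
    exact hw (stab h2 hi)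
  · exact fun h1 => h.pw_le h1

end pow

section real

theorem approx {r : ℝ} (h0 : 0 < r) (hr : Irrational r) (n : ℕ) : ∃ a b : ℕ, ∀ i < n,
    ((b + 1) * (i.unpair.2 + 1) ≤ (a + 1) * (i.unpair.1 + 1) ↔
      (i.unpair.2 : ℝ) + 1 < r * ((i.unpair.1 : ℝ) + 1)) := by
  have h1 : ∀ i : ℕ, ∀ᶠ x in nhds r, ((i.unpair.2 : ℝ) + 1 ≤ x * ((i.unpair.1 : ℝ) + 1) ↔
      (i.unpair.2 : ℝ) + 1 < r * ((i.unpair.1 : ℝ) + 1)) := by
    intro i
    have hc : ContinuousAt (fun x : ℝ => x * ((i.unpair.1 : ℝ) + 1)) r :=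
      (continuous_id.mul continuous_const).continuousAt
    rcases lt_trichotomy ((i.unpair.2 : ℝ) + 1) (r * ((i.unpair.1 : ℝ) + 1)) with h2 | h2 | h2
    · have h3 := hc.eventually_const_lt h2
      exact h3.mono fun x hx => iff_of_true hx.le h2
    · exfalso
      apply hr
      refine ⟨((i.unpair.2 : ℚ) + 1) / ((i.unpair.1 : ℚ) + 1), ?_⟩
      push_cast
      rw [h2]
      have : ((i.unpair.1 : ℝ) + 1) ≠ 0 := by positivity
      field_simp
    · have h3 := hc.eventually_lt_const h2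
      exact h3.mono fun x hx => iff_of_false (not_le.2 hx) (not_lt.2 h2.le)
  have h2 : ∀ᶠ x in nhds r, 0 < x ∧ ∀ i ∈ Finset.range n,
      ((i.unpair.2 : ℝ) + 1 ≤ x * ((i.unpair.1 : ℝ) + 1) ↔
      (i.unpair.2 : ℝ) + 1 < r * ((i.unpair.1 : ℝ) + 1)) :=
    (lt_mem_nhds h0).and ((Filter.eventually_all_finset _).2 fun i _ => h1 i)
  obtain ⟨U, hU1, hU2, hU3⟩ := mem_nhds_iff.1 h2
  obtain ⟨c, hc⟩ := (Rat.denseRange_cast (𝕜 := ℝ)).exists_mem_open hU2 ⟨r, hU3⟩
  obtain ⟨hc0, hc1⟩ := hU1 hc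
  have hc0' : 0 < c := by exact_mod_cast hc0
  have hn : 0 < c.num := Rat.num_pos.2 hc0'
  have hd : 0 < c.den := c.den_pos
  refine ⟨c.num.toNat - 1, c.den - 1, fun i hi => ?_⟩
  rw [← hc1 i (Finset.mem_range.2 hi)]
  have e1 : c.num.toNat - 1 + 1 = c.num.toNat := by omega
  have e2 : c.den - 1 + 1 = c.den := by omega
  rw [e1, e2]
  have e3 : (c : ℝ) = (c.num.toNat : ℝ) / (c.den : ℝ) := by
    have h4 : ((c.num.toNat : ℤ) : ℝ) = (c.num : ℝ) := by
      rw [Int.toNat_of_nonneg hn.le]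
    have h5 : (c.num.toNat : ℝ) = (c.num : ℝ) := by exact_mod_cast h4
    rw [h5]
    exact Rat.cast_def c
  have hd' : (0 : ℝ) < c.den := by exact_mod_cast hd
  rw [e3, div_mul_eq_mul_div, le_div_iff₀ hd']
  rw [← Nat.cast_le (α := ℝ)]
  push_cast
  rw [mul_comm (c.den : ℝ)]

open Classical in
/-- the cut of a real number -/
noncomputable def cut (r : ℝ) (i : ℕ) : Bool :=
  decide ((i.unpair.2 : ℝ) + 1 < r * ((i.unpair.1 : ℝ) + 1))

theorem cut_iff (r : ℝ) (i : ℕ) :
    cut r i = true ↔ (i.unpair.2 : ℝ) + 1 < r * ((i.unpair.1 : ℝ) + 1) := by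
  unfold cut
  exact decide_eq_true_iff

theorem cut_inj {r s : ℝ} (h0 : 0 < r) (h : r < s) : cut r ≠ cut s := by
  obtain ⟨c, hc1, hc2⟩ := exists_rat_btwn h
  have hc0 : (0 : ℝ) < c := h0.trans hc1
  have hc0' : 0 < c := by exact_mod_cast hc0
  have hn : 0 < c.num := Rat.num_pos.2 hc0'
  have hd : 0 < c.den := c.den_pos
  have e3 : (c : ℝ) = (c.num.toNat : ℝ) / (c.den : ℝ) := by
    have h4 : ((c.num.toNat : ℤ) : ℝ) = (c.num : ℝ) := by
      rw [Int.toNat_of_nonneg hn.le]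
    have h5 : (c.num.toNat : ℝ) = (c.num : ℝ) := by exact_mod_cast h4
    rw [h5]
    exact Rat.cast_def c
  have hd' : (0 : ℝ) < c.den := by exact_mod_cast hd
  have hn' : 1 ≤ c.num.toNat := by omega
  have hd1 : 1 ≤ c.den := by omega
  intro he
  have h1 := congrFun he (Nat.pair (c.den - 1) (c.num.toNat - 1))
  rw [Bool.eq_iff_iff, cut_iff, cut_iff, Nat.unpair_pair] at h1
  simp only [Nat.cast_sub hn', Nat.cast_sub hd1, Nat.cast_one, sub_add_cancel] at h1
  rw [e3, lt_div_iff₀ hd'] at hc1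
  rw [e3, div_lt_iff₀ hd'] at hc2
  exact absurd (h1.2 hc2) (not_lt.2 hc1.le)

theorem unc : ¬ {r : ℝ | 0 < r ∧ Irrational r}.Countable := by
  intro h
  have h1 : Set.Ioi (0 : ℝ) ⊆ {r : ℝ | 0 < r ∧ Irrational r} ∪ Set.range ((↑) : ℚ → ℝ) := by
    intro r hr
    by_cases h2 : Irrational r
    · exact Or.inl ⟨hr, h2⟩
    · right
      unfold Irrational at h2
      push Not at h2
      exact h2
  have h2 : (Set.Ioi (0 : ℝ)).Countable := (h.union (Set.countable_range _)).mono h1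
  have h3 := h2.le_aleph0
  rw [Cardinal.mk_Ioi_real] at h3
  exact absurd h3 (not_le.2 Cardinal.aleph0_lt_continuum)

end real

variable {L : FirstOrder.Language.{0, 0}}

/-- the multiplication -/
def mu (S : L.Structure ℕ) (F : L.Functions 2) (u v : ℕ) : ℕ := @Structure.funMap L ℕ S 2 F ![u, v]

/-- the relation -/
def rl (S : L.Structure ℕ) (R : L.Relations 2) (u v : ℕ) : Prop :=
  @Structure.RelMap L ℕ S 2 R ![u, v]

/-- the terms of the powers -/
def tpw (F : L.Functions 2) (i : Fin 2) : ℕ → L.Term (Fin 2)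
  | 0 => Term.var i
  | n + 1 => F.apply₂ (tpw F i n) (Term.var i)

theorem tpw_realize (S : L.Structure ℕ) (F : L.Functions 2) (i : Fin 2) (v : Fin 2 → ℕ) :
    ∀ n, @Term.realize L ℕ S _ v (tpw F i n) = pw (mu S F) (v i) n
  | 0 => rfl
  | n + 1 => by
    show @Term.realize L ℕ S _ v (F.apply₂ (tpw F i n) (Term.var i)) =
      mu S F (pw (mu S F) (v i) n) (v i)
    rw [← tpw_realize S F i v n]
    exact Term.realize_functions_apply₂

/-- the formulas of the type -/
def fr (R : L.Relations 2) (F : L.Functions 2) (n : ℕ) : L.Formula (Fin 2) :=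
  R.formula₂ (tpw F 0 n.unpair.1) (tpw F 1 n.unpair.2)

theorem fr_realize (S : L.Structure ℕ) (R : L.Relations 2) (F : L.Functions 2) (n : ℕ)
    (v : Fin 2 → ℕ) : @Formula.Realize L ℕ S _ (fr R F n) v ↔
      rl S R (pw (mu S F) (v 0) n.unpair.1) (pw (mu S F) (v 1) n.unpair.2) := by
  rw [← tpw_realize S F 0 v, ← tpw_realize S F 1 v]
  exact Formula.realize_rel₂

/-- Theories with unbounded exponents. -/
theorem vaught_unb (hL : Countable L.Symbols) (T : L.Theory) (R : L.Relations 2)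
    (F : L.Functions 2) (hT : ∀ S : L.Structure ℕ, @Theory.Model L ℕ S T →
      NO (fun u v => rl S R v u) (mu S F))
    (hN : ∀ N, ∃ S : L.Structure ℕ, @Theory.Model L ℕ S T ∧
      ∃ w, pw (mu S F) w N ≠ pw (mu S F) w (N + 1)) : VaughtF L T := by
  refine vaught_types hL T (fr R F) fun hc => ?_
  apply unc
  have h1 : Set.InjOn cut {r : ℝ | 0 < r ∧ Irrational r} := by
    intro r hr s hs he
    rcases lt_trichotomy r s with h | h | h
    · exact absurd he (cut_inj hr.1 h)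
    · exact h
    · exact absurd he.symm (cut_inj hs.1 h)
  refine Set.countable_of_injective_of_countable_image h1 (hc.mono ?_)
  rintro _ ⟨r, ⟨h0, hr⟩, rfl⟩
  let χ : ℕ → L.Formula (Fin 2) := fun n => if cut r n = true then fr R F n else (fr R F n).not
  have hχ : ∀ (S : L.Structure ℕ) (v : Fin 2 → ℕ) (n : ℕ),
      @Formula.Realize L ℕ S _ (χ n) v ↔
        (cut r n = true ↔ @Formula.Realize L ℕ S _ (fr R F n) v) := by
    intro S v n
    show @Formula.Realize L ℕ S _ (if cut r n = true then fr R F n else (fr R F n).not) v ↔ _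
    split_ifs with h2
    · exact ⟨fun h => iff_of_true h2 h, fun h => h.1 h2⟩
    · have h3 : @Formula.Realize L ℕ S _ (fr R F n).not v ↔
          ¬ @Formula.Realize L ℕ S _ (fr R F n) v := Formula.realize_not
      rw [h3]
      exact ⟨fun h => iff_of_false h2 h, fun h h' => h2 (h.2 h')⟩
  obtain ⟨S, v, hS, hv⟩ := cmpt hL (T := T) χ (fun n => by
    obtain ⟨a, b, hab⟩ := approx h0 hr n
    obtain ⟨S, hS, w, hw⟩ := hN ((a + 1) * (n + 1) + (b + 1) * (n + 1))
    have hno := hT S hS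
    refine ⟨S, ![pw (mu S F) w a, pw (mu S F) w b], hS, fun i hi => ?_⟩
    rw [hχ, fr_realize, cut_iff, ← hab i hi]
    show _ ↔ rl S R (pw (mu S F) (pw (mu S F) w a) i.unpair.1)
      (pw (mu S F) (pw (mu S F) w b) i.unpair.2)
    rw [pw_pw hno.assoc, pw_pw hno.assoc]
    have h5 : (a + 1) * (i.unpair.1 + 1) ≤ (a + 1) * (n + 1) :=
      Nat.mul_le_mul_left _ (by have := Nat.unpair_left_le i; omega)
    have h6 := hno.pw_iff hw (i := (a + 1) * (i.unpair.1 + 1) - 1)
      (j := (b + 1) * (i.unpair.2 + 1) - 1) (by omega)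
    refine Iff.trans ?_ h6.symm
    have h7 : 0 < (a + 1) * (i.unpair.1 + 1) := Nat.mul_pos (by omega) (by omega)
    have h8 : 0 < (b + 1) * (i.unpair.2 + 1) := Nat.mul_pos (by omega) (by omega)
    omega)
  exact ⟨S, v, hS, fun n => (hχ S v n).1 (hv n)⟩

end Pool.Agent.H2.TM
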