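import Pool.Agent.H2.TM.Kap
import Pool.Graph.R_seed8.TH686.FO.Rec
import Pool.Graph.R_seed8.TH686.FO.Inst

set_option autoImplicit false

/-!
The class of the codes is first-order.
-/

namespace Pool.Agent.H2.TM

open FirstOrder FirstOrder.Language
open Pool.Agent.W889.FO Pool.Agent.W889.VC
open Pool.Agent.W889.FO.StA (FD.all1 FD.ex1)
open Pool.Agent.W889.FO.St0 (RF LF)
open Pool.Agent.TH686.FO

/-- The function symbols: a binary function symbol. -/
inductive FM : ℕ → Type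
  | mul : FM 2

/-- The relation symbols: a binary relation symbol. -/
inductive RM : ℕ → Type
  | le : RM 2

/-- The language of the ordered semigroups: a binary function symbol and a binary relation
symbol. -/
def LM : FirstOrder.Language.{0, 0} := ⟨FM, RM⟩

/-- the order -/
def lo (S : (LF LM).Structure ℕ) (u v : ℕ) : Prop :=
  @Structure.RelMap (LF LM) ℕ S 2 (RF.rel RM.le) ![u, v]

/-- the graph of the multiplication -/
def mg (S : (LF LM).Structure ℕ) (u v w : ℕ) : Prop :=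
  @Structure.RelMap (LF LM) ℕ S 3 (RF.fn FM.mul) ![u, v, w]

theorem fb_lo : FB lo := fun {_} i j => fd_two (L' := LF LM) (RF.rel RM.le) i j

/-- definable ternary relations -/
def FT3 {L' : FirstOrder.Language.{0, 0}} (y : L'.Structure ℕ → ℕ → ℕ → ℕ → Prop) : Prop :=
  ∀ {α : Type} (i j k : α), FD (fun _ => True) (fun S v => y S (v i) (v j) (v k))

theorem ft_mg : FT3 mg := by
  intro α i j k
  refine (FD.rel (W := fun _ => True) (L := LF LM) (RF.fn FM.mul) ![i, j, k]).congr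
    fun S _ v => ?_
  have e : (fun m : Fin 3 => v (![i, j, k] m)) = ![v i, v j, v k] := by
    funext m
    fin_cases m <;> rfl
  rw [e]
  exact Iff.rfl

section fd

variable {L' : FirstOrder.Language.{0, 0}} {le : L'.Structure ℕ → ℕ → ℕ → Prop}
  {g : L'.Structure ℕ → ℕ → ℕ → ℕ → Prop} (hl : FB le) (hg : FT3 g)

include hl

theorem fu_one : FU (fun S => isOne (le S)) := fun i => FD.all1 (hl x0 (Sum.inl i))

theorem fu_z : FU (fun S => isZ (le S)) := fun i => FD.all1 (hl (Sum.inl i) x0)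

theorem fb_prd : FB (fun S => prd (le S)) := fun i j =>
  (hl j i).and <| (FD.eq j i).not.and <| FD.all1 <| (hl (Sum.inl j) x0).imp <|
    (hl x0 (Sum.inl i)).imp <| (FD.eq x0 (Sum.inl j)).or (FD.eq x0 (Sum.inl i))

include hg

theorem fb_cmp : FB (fun S => cmp (le S) (g S)) := fun i j =>
  (fu_one hl j).not.and <| FD.ex1 <| (hg (Sum.inl i) (Sum.inl j) x0).and <|
    (fu_z hl x0).not.and (hg (Sum.inl i) (Sum.inl i) x0).not

theorem fu_dm : FU (fun S => dm (le S) (g S)) := fun i =>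
  (fu_one hl i).not.and <| (FD.ex1 <| (hg (Sum.inl i) (Sum.inl i) x0).and (fu_z hl x0).not).and <|
    FD.ex1 (fb_cmp hl hg (Sum.inl i) x0)

theorem fb_K (t : Fin 9) : FB (fun S => K (le S) (g S) t) := fun i j =>
  match t with
  | 0 => fu_one hl j
  | 1 => FD.ex1 <| (fu_one hl x0).and (fb_prd hl x0 (Sum.inl j))
  | 2 => FD.eq j i
  | 3 => fb_prd hl i j
  | 4 => fb_cmp hl hg i j
  | 5 => FD.ex1 <| (fb_cmp hl hg (Sum.inl i) x0).and (fb_prd hl x0 (Sum.inl j))
  | 6 => hg i i j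
  | 7 => FD.ex1 <| (fb_cmp hl hg (Sum.inl i) x0).and (hg (Sum.inl i) x0 (Sum.inl j))
  | 8 => fu_z hl j

omit hg in
theorem fb_r1 : FB (fun S => r1 (le S)) := fun i j => (hl i j).and (FD.eq i j).not

theorem fb_r2 : FB (fun S => r2 (le S) (g S)) := fun i j =>
  FD.ex1 <| FD.ex1 <| (fb_K hl hg 7 (Sum.inl (Sum.inl i)) x1).and <|
    (fb_K hl hg 7 (Sum.inl (Sum.inl j)) x0).and <| (hl x1 x0).and (FD.eq x1 x0).not

omit hl hg

theorem fd_leF {l1 l2 : L'.Structure ℕ → ℕ → ℕ → Prop} (h1 : FB l1) (h2 : FB l2) (t s : Fin 9) :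
    FB (fun S => fun u v => El.leF (l1 S) (l2 S) t s u v) := fun i j =>
  (FD.const _).or <| (FD.const _).and <|
    ((FD.const _).and <| (h1 i j).or <| (FD.eq i j).and (FD.const _)).or <|
    ((FD.const _).and <| (h1 j i).or <| (FD.eq i j).and (FD.const _)).or <|
    ((FD.const _).and <| (FD.eq i j).or (h2 i j)).or (FD.const _)

theorem fd_pqF {l1 : L'.Structure ℕ → ℕ → ℕ → Prop} (h1 : FB l1) (p q : Prop) (r : Fin 9)
    {α : Type} (i j k : α) : FD (fun _ => True)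
      (fun S v => El.pqF (l1 S) (v i) p (v j) q r (v k)) :=
  ((h1 j i).and (FD.const _)).or <| (h1 j i).not.and <|
    ((FD.eq i j).and <| (FD.const _).and <| (FD.const _).and <| (FD.const _).and (FD.eq k i)).or <|
      ((FD.eq i j).and <| (FD.const _).and (FD.const _)).not.and (FD.const _)

theorem fd_mulF {l1 : L'.Structure ℕ → ℕ → ℕ → Prop} (h1 : FB l1) (t s r : Fin 9) :
    FT3 (fun S => fun u v w => El.mulF (l1 S) t s r u v w) := fun i j k =>
  ((FD.const _).and <| (FD.const _).and <| (FD.const _).or (FD.eq j k)).or <|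
  ((FD.const _).and <| (FD.const _).and <| (FD.const _).and <| (FD.const _).or (FD.eq i k)).or <|
  (FD.const _).and <| (FD.const _).and <|
    ((FD.const _).and (FD.const _)).or <|
    ((FD.const _).and (fd_pqF h1 _ _ r i j k)).or <|
    ((FD.const _).and (fd_pqF h1 _ _ r j i k)).or ((FD.const _).and (FD.const _))

end fd

/-- the domain of a structure -/
abbrev dS (S : (LF LM).Structure ℕ) : ℕ → Prop := dm (lo S) (mg S)

/-- the copies -/
abbrev kS (S : (LF LM).Structure ℕ) (t : Fin 9) : ℕ → ℕ → Prop := K (lo S) (mg S) t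

/-- the first order of a structure -/
abbrev r1S (S : (LF LM).Structure ℕ) : ℕ → ℕ → Prop := r1 (lo S)

/-- the second order of a structure -/
abbrev r2S (S : (LF LM).Structure ℕ) : ℕ → ℕ → Prop := r2 (lo S) (mg S)

/-- strict linear orders on a subset -/
structure LinOn (d : ℕ → Prop) (l : ℕ → ℕ → Prop) : Prop where
  irrefl : ∀ u, d u → ¬ l u u
  trans : ∀ u v w, d u → d v → d w → l u v → l v w → l u w
  total : ∀ u v, d u → d v → u ≠ v → l u v ∨ l v u

/-- the codes -/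
structure Wm (S : (LF LM).Structure ℕ) : Prop where
  ex : ∀ t u, dS S u → ∃ a, kS S t u a
  un : ∀ t u a b, dS S u → kS S t u a → kS S t u b → a = b
  cov : ∀ a, ∃ t u, dS S u ∧ kS S t u a
  uq : ∀ t s u v a, dS S u → dS S v → kS S t u a → kS S s v a → t = s ∧ (El.con t ∨ u = v)
  cst : ∀ t u v a, El.con t → dS S u → dS S v → kS S t u a → kS S t v a
  le : ∀ t s u v a b, dS S u → dS S v → kS S t u a → kS S s v b →
    (lo S a b ↔ El.leF (r1S S) (r2S S) t s u v)
  mul : ∀ t s r u v w a b c, dS S u → dS S v → dS S w → kS S t u a → kS S s v b → kS S r w c →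
    (mg S a b c ↔ El.mulF (r1S S) t s r u v w)
  lin1 : LinOn (dS S) (r1S S)
  lin2 : LinOn (dS S) (r2S S)

theorem ax_lin {L' : FirstOrder.Language.{0, 0}} {d : L'.Structure ℕ → ℕ → Prop}
    {l : L'.Structure ℕ → ℕ → ℕ → Prop} (hd : FU d) (hl : FB l) :
    Ax (fun S => LinOn (d S) (l S)) := by
  have h1 : Ax (fun S => ∀ u, d S u → ¬ l S u u) := Ax.of <| FD.all1 <| (hd x0).imp (hl x0 x0).not
  have h2 : Ax (fun S => ∀ u v w, d S u → d S v → d S w → l S u v → l S v w → l S u w) :=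
    Ax.of <| FD.all1 <| FD.all1 <| FD.all1 <| (hd x2).imp <| (hd x1).imp <| (hd x0).imp <|
      (hl x2 x1).imp <| (hl x1 x0).imp (hl x2 x0)
  have h3 : Ax (fun S => ∀ u v, d S u → d S v → u ≠ v → l S u v ∨ l S v u) :=
    Ax.of <| FD.all1 <| FD.all1 <| (hd x1).imp <| (hd x0).imp <| (FD.eq x1 x0).not.imp <|
      (hl x1 x0).or (hl x0 x1)
  refine (h1.and (h2.and h3)).congr fun S => ?_
  exact ⟨fun ⟨k1, k2, k3⟩ => ⟨k1, k2, k3⟩, fun ⟨k1, k2, k3⟩ => ⟨k1, k2, k3⟩⟩

theorem fu_dS : FU dS := fu_dm fb_lo ft_mg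

theorem fb_kS (t : Fin 9) : FB (fun S => kS S t) := fb_K fb_lo ft_mg t

theorem fb_r1S : FB r1S := fb_r1 fb_lo

theorem fb_r2S : FB r2S := fb_r2 fb_lo ft_mg

theorem ax_Wm : Ax Wm := by
  have h1 : Ax (fun S => ∀ (t : Fin 9) (u : ℕ), dS S u → ∃ a, kS S t u a) :=
    Ax.all fun t => Ax.of <| FD.all1 <| (fu_dS x0).imp <| FD.ex1 (fb_kS t x1 x0)
  have h2 : Ax (fun S => ∀ (t : Fin 9) (u a b : ℕ), dS S u → kS S t u a → kS S t u b → a = b) :=
    Ax.all fun t => Ax.of <| FD.all1 <| FD.all1 <| FD.all1 <| (fu_dS x2).imp <|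
      (fb_kS t x2 x1).imp <| (fb_kS t x2 x0).imp (FD.eq x1 x0)
  have h3 : Ax (fun S => ∀ a, ¬ ∀ t : Fin 9, ¬ ∃ u, dS S u ∧ kS S t u a) :=
    Ax.of <| FD.all1 <| (FD.fin fun t : Fin 9 => (FD.ex1 <| (fu_dS x0).and
      (fb_kS t x0 x1)).not).not
  have h4 : Ax (fun S => ∀ (t s : Fin 9) (u v a : ℕ), dS S u → dS S v → kS S t u a →
      kS S s v a → t = s ∧ (El.con t ∨ u = v)) :=
    Ax.all fun t => Ax.all fun s => Ax.of <| FD.all1 <| FD.all1 <| FD.all1 <| (fu_dS x2).imp <|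
      (fu_dS x1).imp <| (fb_kS t x2 x0).imp <| (fb_kS s x1 x0).imp <| (FD.const _).and <|
        (FD.const _).or (FD.eq x2 x1)
  have h5 : Ax (fun S => ∀ (t : Fin 9) (u v a : ℕ), El.con t → dS S u → dS S v → kS S t u a →
      kS S t v a) :=
    Ax.all fun t => Ax.of <| FD.all1 <| FD.all1 <| FD.all1 <| (FD.const _).imp <|
      (fu_dS x2).imp <| (fu_dS x1).imp <| (fb_kS t x2 x0).imp (fb_kS t x1 x0)
  have h6 : Ax (fun S => ∀ (t s : Fin 9) (u v a b : ℕ), dS S u → dS S v → kS S t u a →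
      kS S s v b → (lo S a b ↔ El.leF (r1S S) (r2S S) t s u v)) :=
    Ax.all fun t => Ax.all fun s => Ax.of <| FD.all1 <| FD.all1 <| FD.all1 <| FD.all1 <|
      (fu_dS x3).imp <| (fu_dS x2).imp <| (fb_kS t x3 x1).imp <| (fb_kS s x2 x0).imp <|
        (fb_lo x1 x0).iff (fd_leF fb_r1S fb_r2S t s x3 x2)
  have h7 : Ax (fun S => ∀ (t s r : Fin 9) (u v w a b c : ℕ), dS S u → dS S v → dS S w →
      kS S t u a → kS S s v b → kS S r w c → (mg S a b c ↔ El.mulF (r1S S) t s r u v w)) :=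
    Ax.all fun t => Ax.all fun s => Ax.all fun r => Ax.of <| FD.all1 <| FD.all1 <| FD.all1 <|
      FD.all1 <| FD.all1 <| FD.all1 <| (fu_dS x5).imp <| (fu_dS x4).imp <| (fu_dS x3).imp <|
        (fb_kS t x5 x2).imp <| (fb_kS s x4 x1).imp <| (fb_kS r x3 x0).imp <|
          (ft_mg x2 x1 x0).iff (fd_mulF fb_r1S t s r x5 x4 x3)
  refine (h1.and <| h2.and <| h3.and <| h4.and <| h5.and <| h6.and <| h7.and <|
    (ax_lin fu_dS fb_r1S).and (ax_lin fu_dS fb_r2S)).congr fun S => ?_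
  constructor
  · rintro ⟨k1, k2, k3, k4, k5, k6, k7, k8, k9⟩
    refine ⟨k1, k2, fun a => ?_, k4, k5, k6, k7, k8, k9⟩
    have := k3 a
    push Not at this
    exact this
  · intro h
    refine ⟨h.ex, h.un, fun a k => ?_, h.uq, h.cst, h.le, h.mul, h.lin1, h.lin2⟩
    obtain ⟨t, u, k'⟩ := h.cov a
    exact k t ⟨u, k'⟩

end Pool.Agent.H2.TM
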